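import Mathlib

set_option autoImplicit false

namespace Pool.Agent.Helper542.Schur

open Finsupp

/-- The divisible group `ℚ/ℤ`. -/
abbrev DD : Type := AddCircle (1 : ℚ)

theorem inj_ext {A B : Type*} [AddCommGroup A] [AddCommGroup B] (f : A →+ B)
    (hf : Function.Injective f) (g : A →+ DD) : ∃ h : B →+ DD, ∀ a, h (f a) = g a := by
  obtain ⟨h, hh⟩ := CharacterModule.dual_surjective_of_injective (R := ℤ)
    f.toIntLinearMap hf (g : CharacterModule A)
  refine ⟨h, fun a => ?_⟩
  exact congrArg (fun c : CharacterModule A => c a) hh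

theorem factor_ext {A B : Type*} [AddCommGroup A] [AddCommGroup B] (f : A →+ B)
    (g : A →+ DD) (hker : ∀ a, f a = 0 → g a = 0) : ∃ h : B →+ DD, ∀ a, h (f a) = g a := by
  have hle : f.ker ≤ g.ker := fun a ha => hker a ha
  let e := QuotientAddGroup.quotientKerEquivRange f
  let g' : (A ⧸ f.ker) →+ DD := QuotientAddGroup.lift f.ker g hle
  obtain ⟨h, hh⟩ := inj_ext (f.range.subtype) (Subtype.val_injective)
    (g'.comp e.symm.toAddMonoidHom)
  refine ⟨h, fun a => ?_⟩
  have h1 := hh (f.rangeRestrict a)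
  have h2 : e.symm (f.rangeRestrict a) = QuotientAddGroup.mk a := by
    rw [AddEquiv.symm_apply_eq]
    rfl
  simp only [AddSubgroup.coe_subtype, AddMonoidHom.coe_rangeRestrict, AddMonoidHom.coe_comp,
    AddEquiv.toAddMonoidHom_eq_coe, AddMonoidHom.coe_coe, Function.comp_apply] at h1
  rw [h1, h2]
  rfl

theorem div_ext (d : DD) {m : ℕ} (hm : 0 < m) : ∃ e : DD, m • e = d := by
  refine ⟨DivisibleBy.div d (m : ℤ), ?_⟩
  have := DivisibleBy.div_cancel (A := DD) (α := ℤ) d (n := (m : ℤ)) (by exact_mod_cast hm.ne')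
  rw [← natCast_zsmul]
  exact this

theorem sep_ext {A : Type*} [AddCommGroup A] {a : A} (h : ∀ c : A →+ DD, c a = 0) : a = 0 :=
  CharacterModule.eq_zero_of_character_apply (A := A) h

/-- Normalised 2-cocycles with values in `ℚ/ℤ`. -/
structure NCoc (G : Type) [Group G] where
  f : G → G → DD
  one_left : ∀ g, f 1 g = 0
  one_right : ∀ g, f g 1 = 0
  coc : ∀ g h k, f g h + f (g * h) k = f h k + f g (h * k)

variable {G : Type} [Group G]

/-- The commutator pairing of a cocycle. -/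
def NCoc.c (α : NCoc G) (g h : G) : DD := α.f g h - α.f h g

theorem NCoc.c_mul_left (α : NCoc G) {g g' h : G} (hg : Commute g h) (hg' : Commute g' h) :
    α.c (g * g') h = α.c g h + α.c g' h := by
  unfold NCoc.c
  have h1 := α.coc g g' h
  have h2 := α.coc h g g'
  have h3 := α.coc g h g'
  rw [← hg.eq] at h2
  rw [← hg'.eq] at h3
  have e1 : α.f (g * g') h = α.f g' h + α.f g (g' * h) - α.f g g' := by
    rw [← h1]; abel
  have e2 : α.f h (g * g') = α.f h g + α.f (g * h) g' - α.f g g' := by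
    rw [h2]; abel
  have e3 : α.f (g * h) g' = α.f h g' + α.f g (g' * h) - α.f g h := by
    rw [← h3]; abel
  rw [e1, e2, e3]; abel

theorem NCoc.c_swap (α : NCoc G) (g h : G) : α.c g h = - α.c h g := by
  unfold NCoc.c; abel

theorem NCoc.c_self (α : NCoc G) (g : G) : α.c g g = 0 := by
  unfold NCoc.c; abel

theorem NCoc.c_one_left (α : NCoc G) (g : G) : α.c 1 g = 0 := by
  unfold NCoc.c; rw [α.one_left, α.one_right]; abel

theorem NCoc.c_one_right (α : NCoc G) (g : G) : α.c g 1 = 0 := by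
  unfold NCoc.c; rw [α.one_left, α.one_right]; abel

theorem NCoc.c_mul_right (α : NCoc G) {g h h' : G} (hg : Commute g h) (hg' : Commute g h') :
    α.c g (h * h') = α.c g h + α.c g h' := by
  rw [α.c_swap g (h * h'), α.c_swap g h, α.c_swap g h', α.c_mul_left hg.symm hg'.symm]; abel

theorem NCoc.c_pow_left (α : NCoc G) {g h : G} (hg : Commute g h) (n : ℕ) :
    α.c (g ^ n) h = n • α.c g h := by
  induction n with
  | zero => simp [α.c_one_left]
  | succ n ih => rw [pow_succ, α.c_mul_left (hg.pow_left n) hg, ih, succ_nsmul]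

theorem NCoc.c_pow_right (α : NCoc G) {g h : G} (hg : Commute g h) (n : ℕ) :
    α.c g (h ^ n) = n • α.c g h := by
  rw [α.c_swap, α.c_pow_left hg.symm, α.c_swap g h, smul_neg]

/-- The central extension attached to a cocycle. -/
@[ext] structure CE (α : NCoc G) where
  a : DD
  g : G

variable (α : NCoc G)

instance : Mul (CE α) := ⟨fun u v => ⟨u.a + v.a + α.f u.g v.g, u.g * v.g⟩⟩
instance : One (CE α) := ⟨⟨0, 1⟩⟩
instance : Inv (CE α) := ⟨fun u => ⟨-u.a - α.f u.g⁻¹ u.g, u.g⁻¹⟩⟩

@[simp] theorem CE.mul_a (u v : CE α) : (u * v).a = u.a + v.a + α.f u.g v.g := rfl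
@[simp] theorem CE.mul_g (u v : CE α) : (u * v).g = u.g * v.g := rfl
@[simp] theorem CE.one_a : (1 : CE α).a = 0 := rfl
@[simp] theorem CE.one_g : (1 : CE α).g = 1 := rfl
@[simp] theorem CE.inv_g (u : CE α) : (u⁻¹).g = u.g⁻¹ := rfl
@[simp] theorem CE.inv_a (u : CE α) : (u⁻¹).a = -u.a - α.f u.g⁻¹ u.g := rfl

instance : Group (CE α) := Group.ofLeftAxioms
  (by
    intro u v w
    ext
    · simp only [CE.mul_a, CE.mul_g]
      have := α.coc u.g v.g w.g
      have e : α.f (u.g * v.g) w.g = α.f v.g w.g + α.f u.g (v.g * w.g) - α.f u.g v.g := by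
        rw [← this]; abel
      rw [e]; abel
    · simp [mul_assoc])
  (by
    intro u
    ext
    · simp [α.one_left]
    · simp)
  (by
    intro u
    ext
    · simp only [CE.mul_a, CE.inv_a, CE.inv_g, CE.one_a]; abel
    · simp)

/-- The projection. -/
def CE.pr : CE α →* G where
  toFun u := u.g
  map_one' := rfl
  map_mul' _ _ := rfl

/-- The central inclusion. -/
def CE.inc (d : DD) : CE α := ⟨d, 1⟩

theorem CE.inc_add (d e : DD) : CE.inc α (d + e) = CE.inc α d * CE.inc α e := by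
  ext
  · simp [CE.inc, α.one_left]
  · simp [CE.inc]

theorem CE.inc_zero : CE.inc α 0 = 1 := rfl

theorem CE.inc_mul (d : DD) (u : CE α) : CE.inc α d * u = ⟨d + u.a, u.g⟩ := by
  ext
  · simp [CE.inc, α.one_left]
  · simp [CE.inc]

theorem CE.inc_comm (d : DD) (u : CE α) : CE.inc α d * u = u * CE.inc α d := by
  rw [CE.inc_mul]
  ext
  · simp [CE.inc, α.one_right, add_comm]
  · simp [CE.inc]

theorem CE.inc_pow (d : DD) (n : ℕ) : (CE.inc α d) ^ n = CE.inc α (n • d) := by
  induction n with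
  | zero => simp [CE.inc_zero]
  | succ n ih => rw [pow_succ, ih, succ_nsmul, CE.inc_add]

theorem CE.eq_inc_mul (u v : CE α) (h : u.g = v.g) : u = CE.inc α (u.a - v.a) * v := by
  rw [CE.inc_mul]
  ext
  · simp
  · exact h

theorem CE.comm_eq (u v : CE α) (h : Commute u.g v.g) :
    u * v = CE.inc α (α.c u.g v.g) * (v * u) := by
  rw [CE.inc_mul]
  ext
  · simp only [CE.mul_a, NCoc.c]; abel
  · exact h.eq

theorem CE.inc_inj {d e : DD} (h : CE.inc α d = CE.inc α e) : d = e := congrArg CE.a h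

/-- Conjugation invariance of the commutator pairing. -/
theorem NCoc.c_conj (x : G) {g h : G} (hg : Commute g h) :
    α.c (x * g * x⁻¹) (x * h * x⁻¹) = α.c g h := by
  have hc : Commute (x * g * x⁻¹) (x * h * x⁻¹) := by
    have := hg.eq
    show _ = _
    calc x * g * x⁻¹ * (x * h * x⁻¹) = x * (g * h) * x⁻¹ := by group
      _ = x * (h * g) * x⁻¹ := by rw [this]
      _ = _ := by group
  let X : CE α := ⟨0, x⟩
  let u : CE α := ⟨0, g⟩
  let v : CE α := ⟨0, h⟩
  have h1 := CE.comm_eq α u v hg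
  have h2 := CE.comm_eq α (X * u * X⁻¹) (X * v * X⁻¹) (by simpa [X, u, v] using hc)
  have h3 : (X * u * X⁻¹) * (X * v * X⁻¹) = X * (u * v) * X⁻¹ := by group
  have h4 : (X * v * X⁻¹) * (X * u * X⁻¹) = X * (v * u) * X⁻¹ := by group
  rw [h3, h4, h1] at h2
  have h5 : X * (CE.inc α (α.c u.g v.g) * (v * u)) * X⁻¹
      = CE.inc α (α.c u.g v.g) * (X * (v * u) * X⁻¹) := by
    rw [← mul_assoc X, ← CE.inc_comm α _ X]; group
  rw [h5] at h2
  have h6 := mul_right_cancel h2
  have h7 := CE.inc_inj α h6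
  simpa [X, u, v] using h7.symm

end Pool.Agent.Helper542.Schur
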