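import Mathlib
import Pool.Agent.Helper542.Schur.Base

set_option autoImplicit false

namespace Pool.Agent.Helper542.Schur

open Finsupp groupHomology

section pairs
variable {G : Type}

/-- Pairing a 2-chain with a function. -/
noncomputable def pair (f : G → G → DD) : (G × G →₀ ℤ) →+ DD :=
  Finsupp.liftAddHom fun x => zmultiplesHom DD (f x.1 x.2)

/-- Pairing a 1-chain with a function. -/
noncomputable def pair1 (s : G → DD) : (G →₀ ℤ) →+ DD :=
  Finsupp.liftAddHom fun x => zmultiplesHom DD (s x)

theorem pair_single (f : G → G → DD) (x : G × G) (n : ℤ) :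
    pair f (single x n) = n • f x.1 x.2 := by
  simp [pair]

theorem pair1_single (s : G → DD) (x : G) (n : ℤ) :
    pair1 s (single x n) = n • s x := by
  simp [pair1]

end pairs

variable (G : Type) [Group G]

/-- The trivial representation. -/
noncomputable abbrev RT : Rep ℤ G := Rep.trivial ℤ G ℤ

/-- The second homology group. -/
noncomputable abbrev HH : Type := groupHomology.H2 (Rep.trivial ℤ G ℤ)

/-- The 2-cycles. -/
noncomputable def Z2 : AddSubgroup (G × G →₀ ℤ) := (cycles₂ (Rep.trivial ℤ G ℤ)).toAddSubgroup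

/-- The 2-boundaries. -/
noncomputable def B2 : AddSubgroup (G × G →₀ ℤ) := (boundaries₂ (Rep.trivial ℤ G ℤ)).toAddSubgroup

/-- The first differential used. -/
noncomputable def D21 : (G × G →₀ ℤ) →+ (G →₀ ℤ) :=
  (d₂₁ (Rep.trivial ℤ G ℤ)).hom.toAddMonoidHom

/-- The second differential used. -/
noncomputable def D32 : (G × G × G →₀ ℤ) →+ (G × G →₀ ℤ) :=
  (d₃₂ (Rep.trivial ℤ G ℤ)).hom.toAddMonoidHom

theorem D21_single (a : G × G) (n : ℤ) :
    D21 G (single a n) = single a.2 n - single (a.1 * a.2) n + single a.1 n :=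
  d₂₁_single (A := Rep.trivial ℤ G ℤ) a n

theorem D32_single (g : G × G × G) (n : ℤ) :
    D32 G (single g n) = single (g.2.1, g.2.2) n - single (g.1 * g.2.1, g.2.2) n +
      single (g.1, g.2.1 * g.2.2) n - single (g.1, g.2.1) n :=
  d₃₂_single (A := Rep.trivial ℤ G ℤ) g n

theorem mem_Z2 (x : G × G →₀ ℤ) : x ∈ Z2 G ↔ D21 G x = 0 := Iff.rfl

theorem mem_B2 (x : G × G →₀ ℤ) : x ∈ B2 G ↔ ∃ y, D32 G y = x := Iff.rfl

/-- The projection from cycles to homology. -/
noncomputable def prj : Z2 G →+ HH G :=
  (H2π (Rep.trivial ℤ G ℤ)).hom.toAddMonoidHom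

theorem prj_surj : Function.Surjective (prj G) := by
  intro x
  induction x using H2_induction_on with
  | _ x => exact ⟨x, rfl⟩

theorem prj_eq_zero_iff (x : Z2 G) : prj G x = 0 ↔ x.1 ∈ B2 G :=
  H2π_eq_zero_iff (A := Rep.trivial ℤ G ℤ) x

theorem B2_le : B2 G ≤ Z2 G := boundaries₂_le_cycles₂ (Rep.trivial ℤ G ℤ)

variable {G}

theorem pair_D21 (s : G → DD) (f : G → G → DD) (h : ∀ g k, f g k = s g + s k - s (g * k))
    (x : G × G →₀ ℤ) : pair f x = pair1 s (D21 G x) := by
  induction x using Finsupp.induction_linear with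
  | zero => simp
  | add a b ha hb => rw [map_add, map_add, map_add, ha, hb]
  | single a n =>
    rw [pair_single, D21_single, map_add, map_sub, pair1_single, pair1_single, pair1_single, h]
    rw [smul_sub, smul_add]; abel

theorem pair_cob (s : G → DD) (f : G → G → DD) (h : ∀ g k, f g k = s g + s k - s (g * k))
    (x : G × G →₀ ℤ) (hx : x ∈ Z2 G) : pair f x = 0 := by
  rw [pair_D21 s f h, (mem_Z2 G x).1 hx, map_zero]

theorem pair_D32 (f : G → G → DD)
    (h : ∀ g h k, f g h + f (g * h) k = f h k + f g (h * k)) (y : G × G × G →₀ ℤ) :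
    pair f (D32 G y) = 0 := by
  induction y using Finsupp.induction_linear with
  | zero => simp
  | add a b ha hb => rw [map_add, map_add, ha, hb, add_zero]
  | single a n =>
    rw [D32_single, map_sub, map_add, map_sub, pair_single, pair_single, pair_single, pair_single]
    rw [← smul_sub, ← smul_add, ← smul_sub]
    have := h a.1 a.2.1 a.2.2
    have e : f a.2.1 a.2.2 - f (a.1 * a.2.1) a.2.2 + f a.1 (a.2.1 * a.2.2) - f a.1 a.2.1
        = (f a.2.1 a.2.2 + f a.1 (a.2.1 * a.2.2)) - (f a.1 a.2.1 + f (a.1 * a.2.1) a.2.2) := by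
      abel
    rw [e, this, sub_self, smul_zero]

theorem pair_sub (f f' : G → G → DD) (x : G × G →₀ ℤ) :
    pair (fun g h => f g h - f' g h) x = pair f x - pair f' x := by
  induction x using Finsupp.induction_linear with
  | zero => simp
  | add a b ha hb => rw [map_add, map_add, map_add, ha, hb]; abel
  | single a n => rw [pair_single, pair_single, pair_single, smul_sub]

/-- Every character of the second homology comes from a normalised cocycle. -/
theorem exists_coc (χ : HH G →+ DD) :
    ∃ α : NCoc G, ∀ x : Z2 G, χ (prj G x) = pair α.f x.1 := by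
  obtain ⟨h, hh⟩ := inj_ext (Z2 G).subtype Subtype.val_injective (χ.comp (prj G))
  let f0 : G → G → DD := fun g k => h (single (g, k) 1)
  have hpair : ∀ x, h x = pair f0 x := by
    intro x
    induction x using Finsupp.induction_linear with
    | zero => simp
    | add a b ha hb => rw [map_add, map_add, ha, hb]
    | single a n =>
      rw [pair_single]
      have : (single a n : G × G →₀ ℤ) = n • single a 1 := by simp
      rw [this, map_zsmul]
  have hcoc : ∀ g k l, f0 g k + f0 (g * k) l = f0 k l + f0 g (k * l) := by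
    intro g k l
    have hb : D32 G (single (g, k, l) 1) ∈ B2 G := ⟨_, rfl⟩
    have hz : h (D32 G (single (g, k, l) 1)) = 0 := by
      have := hh ⟨_, B2_le G hb⟩
      simp only [AddSubgroup.coe_subtype, AddMonoidHom.coe_comp, Function.comp_apply] at this
      rw [this, (prj_eq_zero_iff G ⟨_, B2_le G hb⟩).2 hb, map_zero]
    rw [D32_single, map_sub, map_add, map_sub] at hz
    have e : f0 k l - f0 (g * k) l + f0 g (k * l) - f0 g k = 0 := hz
    have e' : f0 k l - f0 (g * k) l + f0 g (k * l) - f0 g k
        = (f0 k l + f0 g (k * l)) - (f0 g k + f0 (g * k) l) := by abel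
    rw [e'] at e
    exact (sub_eq_zero.1 e).symm
  have h1 : ∀ g, f0 1 g = f0 1 1 := by
    intro g
    have := hcoc 1 1 g
    simp only [one_mul] at this
    exact (add_right_cancel this).symm
  have h2 : ∀ g, f0 g 1 = f0 1 1 := by
    intro g
    have := hcoc g 1 1
    simp only [mul_one] at this
    exact add_right_cancel this
  refine ⟨⟨fun g k => f0 g k - f0 1 1, fun g => by rw [h1, sub_self],
    fun g => by rw [h2, sub_self], ?_⟩, ?_⟩
  · intro g k l
    have := hcoc g k l
    have e1 : f0 g k - f0 1 1 + (f0 (g * k) l - f0 1 1)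
        = (f0 g k + f0 (g * k) l) - f0 1 1 - f0 1 1 := by abel
    rw [e1, this]; abel
  · intro x
    have e1 : χ (prj G x) = h x.1 := (hh x).symm
    have e2 := pair_sub f0 (fun _ _ => f0 1 1) x.1
    have e3 : pair (fun (_ _ : G) => f0 1 1) x.1 = 0 :=
      pair_cob (fun _ => f0 1 1) _ (fun g k => by abel) x.1 x.2
    rw [e3, sub_zero] at e2
    rw [e1, hpair, ← e2]

/-- Every normalised cocycle gives a character. -/
theorem exists_char (α : NCoc G) :
    ∃ χ : HH G →+ DD, ∀ x : Z2 G, χ (prj G x) = pair α.f x.1 := by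
  apply factor_ext (prj G) ((pair α.f).comp (Z2 G).subtype)
  intro x hx
  rw [prj_eq_zero_iff] at hx
  obtain ⟨y, hy⟩ := hx
  have : (pair α.f) (D32 G y) = 0 := pair_D32 α.f α.coc y
  simp only [AddMonoidHom.coe_comp, Function.comp_apply, AddSubgroup.coe_subtype]
  rw [← hy]
  exact this

/-- The commutator cycle of two commuting elements. -/
noncomputable def cyc (g h : G) (hg : Commute g h) : Z2 G :=
  ⟨single (g, h) 1 - single (h, g) 1, by
    rw [mem_Z2, map_sub, D21_single, D21_single, hg.eq]
    abel⟩

theorem pair_cyc (α : NCoc G) (g h : G) (hg : Commute g h) :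
    pair α.f (cyc g h hg).1 = α.c g h := by
  show pair α.f (single (g, h) 1 - single (h, g) 1) = _
  rw [map_sub, pair_single, pair_single, one_smul, one_smul]
  rfl

/-- Homology classes are separated by cocycles. -/
theorem HH_sep {a b : HH G} (h : ∀ χ : HH G →+ DD, χ a = χ b) : a = b := by
  rw [← sub_eq_zero]
  apply sep_ext
  intro c
  rw [map_sub, h c, sub_self]

end Pool.Agent.Helper542.Schur
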