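import Mathlib

set_option autoImplicit false

namespace Pool.Agent.Helper542.Schur

/-- Data for a cyclic extension: an automorphism of finite order and a fixed central element. -/
structure CData (P : Type) [Group P] where
  φ : MulAut P
  z : P
  m : ℕ
  mpos : 0 < m
  fix : φ z = z
  cen : ∀ p, z * p = p * z
  ord : φ ^ m = 1

variable {P : Type} [Group P] (C : CData P)

/-- The semidirect product with the integers. -/
abbrev SD : Type := P ⋊[zpowersHom (MulAut P) C.φ] Multiplicative ℤ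

theorem CData.fix_zpow (k : ℤ) : (C.φ ^ k) C.z = C.z := by
  have h1 : C.φ ∈ MulAction.stabilizer (MulAut P) C.z := C.fix
  exact (MulAction.stabilizer (MulAut P) C.z).zpow_mem h1 k

theorem CData.fix_zpow_inv (k : ℤ) : (C.φ ^ k) C.z⁻¹ = C.z⁻¹ := by
  rw [map_inv, C.fix_zpow]

/-- The central element factored out. -/
def CData.c : SD C := SemidirectProduct.inl C.z⁻¹ * SemidirectProduct.inr (Multiplicative.ofAdd (C.m : ℤ))

theorem CData.c_comm (x : SD C) : C.c * x = x * C.c := by
  have hm : C.φ ^ (C.m : ℤ) = 1 := by rw [zpow_natCast, C.ord]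
  ext
  · simp only [CData.c, SemidirectProduct.mul_left, SemidirectProduct.left_inl,
      SemidirectProduct.right_inl, SemidirectProduct.left_inr, map_one,
      SemidirectProduct.right_inr, SemidirectProduct.mul_right, one_mul, MulAut.one_apply,
      mul_one, zpowersHom_apply, toAdd_ofAdd, hm, C.fix_zpow_inv]
    have := C.cen (x.left)
    have h2 : C.z⁻¹ * x.left = x.left * C.z⁻¹ := by
      rw [inv_mul_eq_iff_eq_mul, ← mul_assoc, this, mul_assoc, mul_inv_cancel, mul_one]
    exact h2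
  · simp only [CData.c, SemidirectProduct.mul_right]
    exact congrArg Multiplicative.toAdd (mul_comm _ _)

instance : (Subgroup.zpowers C.c).Normal := by
  constructor
  rintro n ⟨k, rfl⟩ g
  refine ⟨k, ?_⟩
  have h : Commute C.c g := C.c_comm g
  show C.c ^ k = g * C.c ^ k * g⁻¹
  rw [← (h.zpow_left k).eq, mul_assoc, mul_inv_cancel, mul_one]

/-- The cyclic extension. -/
def Cyc : Type := SD C ⧸ Subgroup.zpowers C.c

instance : Group (Cyc C) := inferInstanceAs (Group (SD C ⧸ Subgroup.zpowers C.c))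

/-- The quotient map. -/
def Cyc.mk : SD C →* Cyc C := QuotientGroup.mk' (Subgroup.zpowers C.c)

/-- The inclusion of the normal subgroup. -/
def Cyc.ι : P →* Cyc C := (Cyc.mk C).comp SemidirectProduct.inl

/-- The extra generator. -/
def Cyc.X : Cyc C := Cyc.mk C (SemidirectProduct.inr (Multiplicative.ofAdd 1))

theorem inr_zpow (k : ℤ) : (SemidirectProduct.inr (Multiplicative.ofAdd 1) : SD C) ^ k
    = SemidirectProduct.inr (Multiplicative.ofAdd k) := by
  rw [← map_zpow, ← ofAdd_zsmul]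
  simp

theorem Cyc.X_zpow (k : ℤ) :
    Cyc.X C ^ k = Cyc.mk C (SemidirectProduct.inr (Multiplicative.ofAdd k)) := by
  rw [Cyc.X, ← map_zpow, inr_zpow]

theorem Cyc.conj (p : P) : Cyc.X C * Cyc.ι C p * (Cyc.X C)⁻¹ = Cyc.ι C (C.φ p) := by
  have := SemidirectProduct.inl_aut (φ := zpowersHom (MulAut P) C.φ) (Multiplicative.ofAdd 1) p
  simp only [zpowersHom_apply, toAdd_ofAdd, zpow_one] at this
  show Cyc.mk C _ * Cyc.mk C _ * (Cyc.mk C _)⁻¹ = Cyc.mk C _
  rw [this, map_mul, map_mul, map_inv, map_inv]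

theorem Cyc.X_pow : Cyc.X C ^ C.m = Cyc.ι C C.z := by
  rw [← zpow_natCast, Cyc.X_zpow]
  have h : Cyc.mk C C.c = 1 := (QuotientGroup.eq_one_iff _).2 (Subgroup.mem_zpowers _)
  rw [CData.c, map_mul] at h
  have h2 : Cyc.mk C (SemidirectProduct.inl C.z⁻¹) = (Cyc.ι C C.z)⁻¹ := by
    rw [← map_inv]; rfl
  rw [h2, inv_mul_eq_one] at h
  exact h.symm

theorem Cyc.form (x : Cyc C) : ∃ (p : P) (k : ℤ), x = Cyc.ι C p * Cyc.X C ^ k := by
  obtain ⟨y, rfl⟩ := QuotientGroup.mk'_surjective (Subgroup.zpowers C.c) x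
  refine ⟨y.left, Multiplicative.toAdd y.right, ?_⟩
  rw [Cyc.X_zpow]
  show Cyc.mk C y = Cyc.mk C _ * Cyc.mk C _
  rw [← map_mul]
  congr 1
  exact SemidirectProduct.mk_eq_inl_mul_inr y.right y.left

theorem CData.c_zpow (j : ℤ) : C.c ^ j =
    SemidirectProduct.inl (C.z ^ (-j)) * SemidirectProduct.inr (Multiplicative.ofAdd (C.m * j)) := by
  have h : Commute (SemidirectProduct.inl C.z⁻¹ : SD C)
      (SemidirectProduct.inr (Multiplicative.ofAdd (C.m : ℤ))) := by
    have := SemidirectProduct.inl_aut (φ := zpowersHom (MulAut P) C.φ)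
      (Multiplicative.ofAdd (C.m : ℤ)) C.z⁻¹
    simp only [zpowersHom_apply, toAdd_ofAdd, C.fix_zpow_inv] at this
    show _ * _ = _ * _
    nth_rewrite 1 [this]
    rw [mul_assoc, ← map_mul, inv_mul_cancel, map_one, mul_one]
  rw [CData.c, h.mul_zpow, ← map_zpow, ← map_zpow, inv_zpow', ← ofAdd_zsmul]
  simp [mul_comm]

theorem Cyc.eq_one_iff (p : P) (k : ℤ) :
    Cyc.ι C p * Cyc.X C ^ k = 1 ↔ ∃ j : ℤ, k = C.m * j ∧ p = C.z ^ (-j) := by
  rw [Cyc.X_zpow]
  have h1 : Cyc.ι C p * Cyc.mk C (SemidirectProduct.inr (Multiplicative.ofAdd k))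
    = Cyc.mk C (SemidirectProduct.inl p * SemidirectProduct.inr (Multiplicative.ofAdd k)) := by
    rw [map_mul]; rfl
  rw [h1]
  have h2 : Cyc.mk C (SemidirectProduct.inl p * SemidirectProduct.inr (Multiplicative.ofAdd k)) = 1
      ↔ SemidirectProduct.inl p * SemidirectProduct.inr (Multiplicative.ofAdd k)
        ∈ Subgroup.zpowers C.c := QuotientGroup.eq_one_iff _
  rw [h2, Subgroup.mem_zpowers_iff]
  constructor
  · rintro ⟨j, hj⟩
    rw [C.c_zpow] at hj
    refine ⟨j, ?_, ?_⟩
    · have := congrArg (fun x : SD C => Multiplicative.toAdd x.right) hj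
      simp only [SemidirectProduct.mul_right, SemidirectProduct.right_inl,
        SemidirectProduct.right_inr, one_mul, toAdd_ofAdd] at this
      exact this.symm
    · have := congrArg (fun x : SD C => x.left) hj
      simp only [SemidirectProduct.mul_left, SemidirectProduct.left_inl,
        SemidirectProduct.left_inr, map_one, mul_one] at this
      exact this.symm
  · rintro ⟨j, rfl, rfl⟩
    exact ⟨j, C.c_zpow j⟩

theorem Cyc.ι_inj : Function.Injective (Cyc.ι C) := by
  rw [injective_iff_map_eq_one]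
  intro p hp
  have := (Cyc.eq_one_iff C p 0).1 (by simpa using hp)
  obtain ⟨j, hj, hp⟩ := this
  have hm : (C.m : ℤ) ≠ 0 := by exact_mod_cast C.mpos.ne'
  have : j = 0 := by
    rcases mul_eq_zero.1 hj.symm with h | h
    · exact absurd h hm
    · exact h
  rw [hp, this]; simp

section lift
variable {H : Type} [Group H] (j : P →* H) (x : H)

theorem conj_zpow (hc : ∀ p, x * j p * x⁻¹ = j (C.φ p)) (k : ℤ) (p : P) :
    j ((C.φ ^ k) p) = x ^ k * j p * (x ^ k)⁻¹ := by
  induction k using Int.induction_on generalizing p with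
  | zero => simp
  | succ n ih =>
    rw [zpow_add_one, MulAut.mul_apply, ih, ← hc, zpow_add_one]
    group
  | pred n ih =>
    rw [zpow_sub_one, MulAut.mul_apply, ih, zpow_sub_one]
    have h2 : j ((C.φ⁻¹) p) = x⁻¹ * j p * x := by
      have := hc ((C.φ⁻¹) p)
      rw [MulAut.apply_inv_self] at this
      rw [← this]; group
    rw [h2]; group

/-- The lift on the semidirect product. -/
def Cyc.pre (hc : ∀ p, x * j p * x⁻¹ = j (C.φ p)) : SD C →* H :=
  SemidirectProduct.lift j (zpowersHom H x) (by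
      intro g
      ext p
      simp only [MonoidHom.coe_comp, MulEquiv.coe_toMonoidHom, Function.comp_apply,
        MulAut.conj_apply, zpowersHom_apply]
      exact conj_zpow C j x hc (Multiplicative.toAdd g) p)

theorem Cyc.pre_inl (hc : ∀ p, x * j p * x⁻¹ = j (C.φ p)) (p : P) :
    Cyc.pre C j x hc (SemidirectProduct.inl p) = j p := by
  simp [Cyc.pre]

theorem Cyc.pre_inr (hc : ∀ p, x * j p * x⁻¹ = j (C.φ p)) (k : ℤ) :
    Cyc.pre C j x hc (SemidirectProduct.inr (Multiplicative.ofAdd k)) = x ^ k := by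
  simp [Cyc.pre]

/-- The universal property. -/
def Cyc.lift (hc : ∀ p, x * j p * x⁻¹ = j (C.φ p)) (hm : x ^ C.m = j C.z) : Cyc C →* H :=
  QuotientGroup.lift (Subgroup.zpowers C.c) (Cyc.pre C j x hc) (by
    rw [Subgroup.zpowers_le, MonoidHom.mem_ker, CData.c, map_mul, Cyc.pre_inl, Cyc.pre_inr,
      zpow_natCast, hm, map_inv, inv_mul_cancel])

theorem Cyc.lift_ι (hc : ∀ p, x * j p * x⁻¹ = j (C.φ p)) (hm : x ^ C.m = j C.z) (p : P) :
    Cyc.lift C j x hc hm (Cyc.ι C p) = j p := Cyc.pre_inl C j x hc p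

theorem Cyc.lift_X (hc : ∀ p, x * j p * x⁻¹ = j (C.φ p)) (hm : x ^ C.m = j C.z) :
    Cyc.lift C j x hc hm (Cyc.X C) = x := by
  have := Cyc.pre_inr C j x hc 1
  rw [zpow_one] at this
  exact this

end lift

theorem Cyc.hom_ext {H : Type} [Group H] (f g : Cyc C →* H)
    (h1 : ∀ p, f (Cyc.ι C p) = g (Cyc.ι C p)) (h2 : f (Cyc.X C) = g (Cyc.X C)) (x : Cyc C) :
    f x = g x := by
  obtain ⟨p, k, rfl⟩ := Cyc.form C x
  rw [map_mul, map_mul, map_zpow, map_zpow, h1, h2]

end Pool.Agent.Helper542.Schur
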