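import Mathlib

set_option autoImplicit false

namespace Pool.Agent.Helper542.Schur

/-- Cyclic and cocyclic nilpotent data on a `p`-group. -/
structure Dat (p n : ℕ) (A : Type) [AddCommGroup A] where
  Y : A →+ A
  v : A
  μ : A →+ ZMod (p ^ n)
  cyc : ∀ S : AddSubgroup A, v ∈ S → (∀ a ∈ S, Y a ∈ S) → ∀ a, a ∈ S
  frob : ∀ S : AddSubgroup A, (∀ a ∈ S, μ a = 0) → (∀ a ∈ S, Y a ∈ S) → ∀ a ∈ S, a = 0
  nil : ∃ s : ℕ, ∀ a, ∃ b, (Y^[s]) a = p • b
  tors : ∀ a : A, p ^ n • a = 0

section
variable {p n : ℕ}

/-- Multiplication by `p` from `ZMod (p ^ n)` to `ZMod (p ^ (n + 1))`. -/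
theorem exists_pm (hp : p.Prime) : ∃ f : ZMod (p ^ n) →+ ZMod (p ^ (n + 1)),
    Function.Injective f ∧ ∀ x, ∃ r, f x = p • r := by
  have h0 : zmultiplesHom (ZMod (p ^ (n + 1))) (p : ZMod (p ^ (n + 1))) ((p ^ n : ℕ) : ℤ) = 0 := by
    rw [zmultiplesHom_apply, zsmul_eq_mul]
    have : ((p ^ (n + 1) : ℕ) : ZMod (p ^ (n + 1))) = 0 := ZMod.natCast_self _
    rw [Int.cast_natCast, ← Nat.cast_mul, ← pow_succ]
    exact this
  refine ⟨ZMod.lift (p ^ n) ⟨_, h0⟩, ?_, ?_⟩
  · rw [injective_iff_map_eq_zero]
    intro x hx
    have : NeZero (p ^ n) := ⟨(pow_pos hp.pos n).ne'⟩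
    obtain ⟨m, rfl⟩ := ZMod.natCast_zmod_surjective x
    have h1 : ZMod.lift (p ^ n) ⟨_, h0⟩ ((m : ℤ) : ZMod (p ^ n)) = _ := ZMod.lift_coe _ _ _
    rw [Int.cast_natCast] at h1
    rw [h1] at hx
    simp only [zmultiplesHom_apply, natCast_zsmul, nsmul_eq_mul] at hx
    have h2 : ((m * p : ℕ) : ZMod (p ^ (n + 1))) = 0 := by
      rw [Nat.cast_mul]; exact hx
    rw [ZMod.natCast_eq_zero_iff] at h2
    rw [ZMod.natCast_eq_zero_iff]
    rw [pow_succ] at h2
    exact Nat.dvd_of_mul_dvd_mul_right hp.pos h2
  · intro x
    obtain ⟨m, rfl⟩ := ZMod.intCast_surjective x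
    rw [ZMod.lift_coe]
    refine ⟨(m : ZMod (p ^ (n + 1))), ?_⟩
    simp only [zmultiplesHom_apply, zsmul_eq_mul, nsmul_eq_mul]
    rw [mul_comm]

theorem exists_act {A : Type} [AddCommGroup A] (N : ℕ) (v : A) (h : N • v = 0) :
    ∃ f : ZMod N →+ A, f 1 = v := by
  have h0 : zmultiplesHom A v (N : ℤ) = 0 := by
    rw [zmultiplesHom_apply, natCast_zsmul, h]
  refine ⟨ZMod.lift N ⟨_, h0⟩, ?_⟩
  have h1 : ZMod.lift N ⟨_, h0⟩ ((1 : ℤ) : ZMod N) = _ := ZMod.lift_coe _ _ _
  rw [Int.cast_one] at h1
  rw [h1]
  simp

/-- Raising the exponent. -/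
theorem Dat.up (hp : p.Prime) {A : Type} [AddCommGroup A] (D : Dat p n A) :
    Nonempty (Dat p (n + 1) A) := by
  obtain ⟨pm, hinj, -⟩ := exists_pm (n := n) hp
  exact ⟨{ Y := D.Y
           v := D.v
           μ := pm.comp D.μ
           cyc := D.cyc
           frob := fun S hS hY => D.frob S (fun a ha => hinj (by
             rw [map_zero]; exact hS a ha)) hY
           nil := D.nil
           tors := fun a => by rw [pow_succ', mul_smul, D.tors, smul_zero] }⟩

/-- Transport. -/
theorem Dat.transport {A A' : Type} [AddCommGroup A] [AddCommGroup A'] (D : Dat p n A)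
    (e : A ≃+ A') : Nonempty (Dat p n A') := by
  refine ⟨{ Y := (e.toAddMonoidHom.comp D.Y).comp e.symm.toAddMonoidHom
            v := e D.v
            μ := D.μ.comp e.symm.toAddMonoidHom
            cyc := ?_
            frob := ?_
            nil := ?_
            tors := ?_ }⟩
  · intro S hv hS a
    have := D.cyc (S.comap e.toAddMonoidHom) hv (by
      intro b hb
      have := hS (e b) hb
      simpa using this) (e.symm a)
    simpa using this
  · intro S hμ hS a ha
    have := D.frob (S.comap e.toAddMonoidHom) (by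
      intro b hb
      have := hμ (e b) hb
      simpa using this) (by
      intro b hb
      have := hS (e b) hb
      simpa using this) (e.symm a) (by simpa using ha)
    simpa using this
  · obtain ⟨s, hs⟩ := D.nil
    refine ⟨s, fun a => ?_⟩
    obtain ⟨b, hb⟩ := hs (e.symm a)
    refine ⟨e b, ?_⟩
    have key : ∀ (k : ℕ) (a : A), (((e.toAddMonoidHom.comp D.Y).comp e.symm.toAddMonoidHom)^[k]) (e a)
        = e ((D.Y^[k]) a) := by
      intro k
      induction k with
      | zero => intro a; rfl
      | succ k ih =>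
        intro a
        rw [Function.iterate_succ_apply, Function.iterate_succ_apply, ← ih]
        simp
    have := key s (e.symm a)
    rw [AddEquiv.apply_symm_apply] at this
    rw [this, hb, map_nsmul]
  · intro a
    have := congrArg e (D.tors (e.symm a))
    rw [map_nsmul, AddEquiv.apply_symm_apply, map_zero] at this
    exact this

end

section block
variable {p n : ℕ} {A : Type} [AddCommGroup A] (D : Dat p n A) (k : ℕ)
  (pm : ZMod (p ^ n) →+ ZMod (p ^ (n + 1))) (act : ZMod (p ^ (n + 1)) →+ A)

/-- The shift operator. -/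
def blockY : ((Fin (k + 1) → ZMod (p ^ (n + 1))) × A) →+ ((Fin (k + 1) → ZMod (p ^ (n + 1))) × A) where
  toFun u := (Fin.cons (pm (D.μ u.2)) (fun i => u.1 i.castSucc), D.Y u.2 + act (u.1 (Fin.last k)))
  map_zero' := by
    ext i
    · refine Fin.cases ?_ (fun j => ?_) i <;> simp
    · simp
  map_add' u w := by
    ext i
    · refine Fin.cases ?_ (fun j => ?_) i <;> simp
    · simp; abel

theorem blockY_snd (u : (Fin (k + 1) → ZMod (p ^ (n + 1))) × A) :
    (blockY D k pm act u).2 = D.Y u.2 + act (u.1 (Fin.last k)) := rfl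

theorem blockY_zero (u : (Fin (k + 1) → ZMod (p ^ (n + 1))) × A) :
    (blockY D k pm act u).1 0 = pm (D.μ u.2) := rfl

theorem blockY_succ (u : (Fin (k + 1) → ZMod (p ^ (n + 1))) × A) (i : Fin k) :
    (blockY D k pm act u).1 i.succ = u.1 i.castSucc := by
  show Fin.cons (α := fun _ => ZMod (p ^ (n + 1))) (pm (D.μ u.2)) (fun i => u.1 i.castSucc) i.succ = _
  rw [Fin.cons_succ]

include D in
theorem Dat.block (hp : p.Prime) : Nonempty (Dat p (n + 1) ((Fin (k + 1) → ZMod (p ^ (n + 1))) × A)) := by
  obtain ⟨pm, hinj, hpm⟩ := exists_pm (n := n) hp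
  obtain ⟨act, hact⟩ := exists_act (p ^ (n + 1)) D.v (by rw [pow_succ', mul_smul, D.tors, smul_zero])
  have hz : ∀ u, (blockY D k pm act u).1 0 = pm (D.μ u.2) := blockY_zero D k pm act
  have hs : ∀ u i, (blockY D k pm act u).1 (Fin.succ i) = u.1 i.castSucc := blockY_succ D k pm act
  have h2 : ∀ u, (blockY D k pm act u).2 = D.Y u.2 + act (u.1 (Fin.last k)) :=
    blockY_snd D k pm act
  set Y := blockY D k pm act with hY
  clear_value Y
  have : NeZero (p ^ (n + 1)) := ⟨(pow_pos hp.pos _).ne'⟩
  refine ⟨{ Y := Y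
            v := (Pi.single 0 1, 0)
            μ := (Pi.evalAddMonoidHom (fun _ : Fin (k + 1) => ZMod (p ^ (n + 1))) (Fin.last k)).comp
              (AddMonoidHom.fst _ _)
            cyc := ?_
            frob := ?_
            nil := ?_
            tors := ?_ }⟩
  · intro S hv hS
    have h1 : ∀ i : Fin (k + 1), ((Pi.single i 1, 0) : (Fin (k + 1) → ZMod (p ^ (n + 1))) × A) ∈ S := by
      intro i
      induction i using Fin.induction with
      | zero => exact hv
      | succ i ih =>
        have h := hS _ ih
        have e : Y (Pi.single i.castSucc 1, 0) = (Pi.single i.succ 1, 0) := by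
          ext j
          · refine Fin.cases ?_ (fun j => ?_) j
            · rw [hz]; simp
            · rw [hs]
              simp only [Pi.single_apply, Fin.castSucc_inj, Fin.succ_inj]
          · rw [h2]
            simp only [map_zero, zero_add]
            rw [Pi.single_eq_of_ne (Fin.castSucc_lt_last i).ne', map_zero]
        rw [← e]; exact h
    have h3 : ∀ (x : Fin (k + 1) → ZMod (p ^ (n + 1))),
        ((x, 0) : (Fin (k + 1) → ZMod (p ^ (n + 1))) × A) ∈ S := by
      intro x
      have e1 : ((x, 0) : (Fin (k + 1) → ZMod (p ^ (n + 1))) × A)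
          = ∑ i, (x i).val • ((Pi.single i 1, 0) : (Fin (k + 1) → ZMod (p ^ (n + 1))) × A) := by
        ext j
        · rw [Prod.fst_sum, Finset.sum_apply]
          simp only [Prod.smul_fst, Pi.smul_apply]
          rw [Finset.sum_eq_single j]
          · rw [Pi.single_eq_same, nsmul_eq_mul, mul_one, ZMod.natCast_zmod_val]
          · intro i _ hij
            rw [Pi.single_eq_of_ne hij.symm, smul_zero]
          · intro h
            exact absurd (Finset.mem_univ j) h
        · rw [Prod.snd_sum]; simp
      rw [e1]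
      exact S.sum_mem fun i _ => S.nsmul_mem (h1 i) _
    have h4 : ∀ c : A, ((0, c) : (Fin (k + 1) → ZMod (p ^ (n + 1))) × A) ∈ S := by
      apply D.cyc (S.comap (AddMonoidHom.inr _ _))
      · show ((0, D.v) : (Fin (k + 1) → ZMod (p ^ (n + 1))) × A) ∈ S
        have h := hS _ (h1 (Fin.last k))
        have e : Y (Pi.single (Fin.last k) 1, 0) = (0, D.v) := by
          ext j
          · refine Fin.cases ?_ (fun j => ?_) j
            · rw [hz]; simp
            · rw [hs]
              simp only [Pi.zero_apply]
              rw [Pi.single_eq_of_ne (Fin.castSucc_lt_last j).ne]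
          · rw [h2]
            simp only [map_zero, zero_add]
            rw [Pi.single_eq_same, hact]
        rw [← e]; exact h
      · intro c hc
        show ((0, D.Y c) : (Fin (k + 1) → ZMod (p ^ (n + 1))) × A) ∈ S
        have h := hS _ hc
        have e : ((0, D.Y c) : (Fin (k + 1) → ZMod (p ^ (n + 1))) × A)
            = Y (0, c) - ((Y (0, c)).1, 0) := by
          ext j
          · simp
          · simp only [Prod.snd_sub, sub_zero]
            rw [h2]; simp
        rw [e]
        exact S.sub_mem h (h3 _)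
    intro u
    have e : u = (u.1, 0) + (0, u.2) := by ext <;> simp
    rw [e]
    exact S.add_mem (h3 _) (h4 _)
  · intro S hμ hS
    have h1 : ∀ i : Fin (k + 1), ∀ u ∈ S, u.1 i = 0 := by
      intro i
      induction i using Fin.reverseInduction with
      | last => exact hμ
      | cast i ih =>
        intro u hu
        have := ih (Y u) (hS u hu)
        rwa [hs] at this
    have h3 : ∀ c, ((0, c) : (Fin (k + 1) → ZMod (p ^ (n + 1))) × A) ∈ S → c = 0 := by
      apply D.frob (S.comap (AddMonoidHom.inr _ _))
      · intro c hc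
        have := h1 0 _ (hS _ hc)
        rw [hz] at this
        exact hinj (by rw [map_zero]; exact this)
      · intro c hc
        show ((0, D.Y c) : (Fin (k + 1) → ZMod (p ^ (n + 1))) × A) ∈ S
        have h := hS _ hc
        have e : Y (0, c) = (0, D.Y c) := by
          ext j
          · exact h1 j _ h
          · rw [h2]; simp
        rw [← e]; exact h
    intro u hu
    have e : u = (0, u.2) := by
      ext j
      · exact h1 j _ hu
      · rfl
    rw [e] at hu ⊢
    have := h3 _ hu
    rw [this]; rfl
  · obtain ⟨s, hs2⟩ := D.nil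
    have hA : ∀ (j : ℕ) (u : (Fin (k + 1) → ZMod (p ^ (n + 1))) × A), ∃ u' b,
        (Y^[j]) u = u' + p • b ∧ ∀ i : Fin (k + 1), (i : ℕ) < j → u'.1 i = 0 := by
      intro j
      induction j with
      | zero =>
        intro u
        exact ⟨u, 0, by simp, fun i hi => absurd hi (Nat.not_lt_zero _)⟩
      | succ j ih =>
        intro u
        obtain ⟨u', b, hu, h0⟩ := ih u
        obtain ⟨r, hr⟩ := hpm (D.μ u'.2)
        refine ⟨(Fin.cons 0 (fun i => u'.1 i.castSucc), D.Y u'.2 + act (u'.1 (Fin.last k))),
          (Pi.single 0 r, 0) + Y b, ?_, ?_⟩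
        · rw [Function.iterate_succ_apply', hu, map_add, map_nsmul, smul_add, ← add_assoc]
          congr 1
          ext i
          · refine Fin.cases ?_ (fun i => ?_) i
            · rw [hz, hr]; simp
            · rw [hs]; simp
          · rw [h2]; simp
        · intro i hi
          induction i using Fin.cases with
          | zero => rfl
          | succ i =>
            show Fin.cons (α := fun _ => ZMod (p ^ (n + 1))) 0 (fun i => u'.1 i.castSucc) i.succ = 0
            rw [Fin.cons_succ]
            apply h0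
            have : (i.succ : ℕ) = i + 1 := Fin.val_succ i
            rw [Fin.val_castSucc]
            omega
    have hB : ∀ (j : ℕ) (c : A), ∃ b, (Y^[j]) (0, c) = (0, (D.Y^[j]) c) + p • b := by
      intro j
      induction j with
      | zero => intro c; exact ⟨0, by simp⟩
      | succ j ih =>
        intro c
        obtain ⟨b, hb⟩ := ih c
        obtain ⟨r, hr⟩ := hpm (D.μ ((D.Y^[j]) c))
        refine ⟨(Pi.single 0 r, 0) + Y b, ?_⟩
        rw [Function.iterate_succ_apply', hb, map_add, map_nsmul, smul_add, ← add_assoc]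
        congr 1
        ext i
        · refine Fin.cases ?_ (fun i => ?_) i
          · rw [hz, hr]; simp
          · rw [hs]; simp
        · rw [h2, Function.iterate_succ_apply']; simp
    have hYn : ∀ (j : ℕ) (u w : (Fin (k + 1) → ZMod (p ^ (n + 1))) × A),
        (Y^[j]) (u + p • w) = (Y^[j]) u + p • (Y^[j]) w := by
      intro j
      induction j with
      | zero => intro u w; rfl
      | succ j ih =>
        intro u w
        rw [Function.iterate_succ_apply, map_add, map_nsmul, ih]
        rfl
    refine ⟨s + (k + 1), fun u => ?_⟩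
    obtain ⟨u', b, hu, h0⟩ := hA (k + 1) u
    have hu' : u' = (0, u'.2) := by
      ext i
      · exact h0 i i.2
      · rfl
    obtain ⟨b2, hb2⟩ := hB s u'.2
    obtain ⟨b3, hb3⟩ := hs2 u'.2
    refine ⟨(0, b3) + b2 + (Y^[s]) b, ?_⟩
    rw [Function.iterate_add_apply, hu, hYn, hu', hb2, hb3]
    ext i
    · simp
    · simp
  · have ht : ∀ c : A, p ^ (n + 1) • c = 0 := fun c => by
      rw [pow_succ', mul_smul, D.tors, smul_zero]
    intro u
    ext i
    · simp only [Prod.smul_fst, Pi.smul_apply, Prod.fst_zero, Pi.zero_apply, nsmul_eq_mul]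
      rw [ZMod.natCast_self, zero_mul]
    · simp only [Prod.smul_snd, Prod.snd_zero]
      exact ht u.2

end block

theorem exists_dat_pi {p : ℕ} (hp : p.Prime) (n : ℕ) :
    ∀ (ι : Type) [Fintype ι] (Z : ι → Type) [∀ i, AddCommGroup (Z i)] (e : ι → ℕ)
      (_ : ∀ i, Nonempty (Z i ≃+ ZMod (p ^ e i))) (_ : ∀ i, e i ≤ n),
      Nonempty (Dat p n (∀ i, Z i)) := by
  classical
  induction n with
  | zero =>
    intro ι _ Z _ e hZ he
    have hsub : ∀ x : (∀ i, Z i), x = 0 := by
      intro x
      funext i
      obtain ⟨E⟩ := hZ i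
      apply E.injective
      have : Subsingleton (ZMod (p ^ e i)) := by
        rw [Nat.le_zero.1 (he i), pow_zero]; infer_instance
      exact Subsingleton.elim _ _
    exact ⟨{ Y := 0
             v := 0
             μ := 0
             cyc := fun S _ _ a => by rw [hsub a]; exact S.zero_mem
             frob := fun S _ _ a _ => hsub a
             nil := ⟨0, fun a => ⟨0, by rw [hsub a, smul_zero]; rfl⟩⟩
             tors := fun a => by rw [hsub a, smul_zero] }⟩
  | succ n ih =>
    intro ι _ Z _ e hZ he
    by_cases hne : ∀ i, e i ≤ n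
    · obtain ⟨D⟩ := ih ι Z e hZ hne
      exact D.up hp
    · push Not at hne
      obtain ⟨i0, hi0⟩ := hne
      have hi0' : e i0 = n + 1 := le_antisymm (he i0) hi0
      obtain ⟨D⟩ := ih {i : ι // ¬ e i = n + 1} (fun i => Z i.1) (fun i => e i.1)
        (fun i => hZ i.1) (fun i => by
          have h1 := he i.1
          have h2 := i.2
          omega)
      have hcard : 0 < Fintype.card {i : ι // e i = n + 1} :=
        Fintype.card_pos_iff.2 ⟨⟨i0, hi0'⟩⟩
      obtain ⟨k, hk⟩ : ∃ k, Fintype.card {i : ι // e i = n + 1} = k + 1 :=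
        ⟨_, (Nat.succ_pred_eq_of_pos hcard).symm⟩
      obtain ⟨D'⟩ := D.block k hp
      have E1 : ∀ i : {i : ι // e i = n + 1}, Z i.1 ≃+ ZMod (p ^ (n + 1)) := by
        intro i
        have := hZ i.1
        rw [i.2] at this
        exact this.some
      let σ : {i : ι // e i = n + 1} ≃ Fin (k + 1) := Fintype.equivFinOfCardEq hk
      let F : ((Fin (k + 1) → ZMod (p ^ (n + 1))) × (∀ i : {i : ι // ¬ e i = n + 1}, Z i.1))
          ≃+ (∀ i, Z i) :=
        { toFun := fun u i => if h : e i = n + 1 then (E1 ⟨i, h⟩).symm (u.1 (σ ⟨i, h⟩))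
            else u.2 ⟨i, h⟩
          invFun := fun x => (fun j => E1 (σ.symm j) (x (σ.symm j).1), fun i => x i.1)
          left_inv := by
            intro u
            ext j
            · simp only
              rw [dif_pos (σ.symm j).2]
              simp
            · simp only
              rw [dif_neg j.2]
          right_inv := by
            intro x
            funext i
            simp only
            split_ifs with h
            · rw [Equiv.symm_apply_apply, AddEquiv.symm_apply_apply]
            · rfl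
          map_add' := by
            intro u w
            funext i
            simp only [Pi.add_apply, Prod.fst_add, Prod.snd_add]
            split_ifs with h
            · rw [map_add]
            · rfl }
      exact D'.transport F

theorem exists_dat {p : ℕ} (hp : p.Prime) (A : Type) [AddCommGroup A] [Finite A]
    (hA : ∀ a : A, ∃ n : ℕ, p ^ n • a = 0) : ∃ n, Nonempty (Dat p n A) := by
  classical
  obtain ⟨ι, _, q, hq, e, ⟨E⟩⟩ := AddCommGroup.equiv_directSum_zmod_of_finite A
  have hZ : ∀ i, Nonempty (ZMod (q i ^ e i) ≃+ ZMod (p ^ e i)) := by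
    intro i
    by_cases hqp : q i = p
    · rw [hqp]; exact ⟨AddEquiv.refl _⟩
    · have he : e i = 0 := by
        by_contra hne
        obtain ⟨n, hn⟩ := hA (E.symm (DirectSum.of (fun i => ZMod (q i ^ e i)) i 1))
        have h1 := congrArg E hn
        rw [map_nsmul, AddEquiv.apply_symm_apply, map_zero, ← map_nsmul] at h1
        have h2 := DirectSum.of_injective (β := fun i => ZMod (q i ^ e i)) i
          (h1.trans (map_zero _).symm)
        rw [nsmul_eq_mul, mul_one] at h2
        rw [ZMod.natCast_eq_zero_iff] at h2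
        have h3 : q i ∣ p ^ n := (dvd_pow_self _ hne).trans h2
        exact hqp ((Nat.prime_dvd_prime_iff_eq (hq i) hp).1 ((hq i).dvd_of_dvd_pow h3))
      rw [he, pow_zero, pow_zero]
      exact ⟨AddEquiv.refl _⟩
  obtain ⟨D⟩ := exists_dat_pi hp (∑ i, e i) ι (fun i => ZMod (q i ^ e i)) e hZ
    (fun i => Finset.single_le_sum (f := e) (fun _ _ => Nat.zero_le _) (Finset.mem_univ i))
  exact ⟨_, D.transport ((DirectSum.addEquivProd (fun i => ZMod (q i ^ e i))).symm.trans E.symm)⟩

end Pool.Agent.Helper542.Schur
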