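import Mathlib
import Pool.Agent.Helper542.Schur.Base
import Pool.Agent.Helper542.Schur.Cyc

set_option autoImplicit false

namespace Pool.Agent.Helper542.Schur

/-- A symmetric cocycle on an abelian group is a coboundary. -/
theorem sym_cob {A : Type} [CommGroup A] (α : NCoc A) (hs : ∀ a b, α.f a b = α.f b a) :
    ∃ s : A → DD, ∀ a b, α.f a b = s a + s b - s (a * b) := by
  let inst : CommGroup (CE α) :=
    { (inferInstance : Group (CE α)) with
      mul_comm := by
        intro u v
        ext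
        · show u.a + v.a + α.f u.g v.g = v.a + u.a + α.f v.g u.g
          rw [hs u.g v.g]; abel
        · exact mul_comm _ _ }
  let f : DD →+ Additive (CE α) :=
    { toFun := fun d => Additive.ofMul (CE.inc α d)
      map_zero' := rfl
      map_add' := fun a b => congrArg Additive.ofMul (CE.inc_add α a b) }
  have hf : Function.Injective f := by
    intro a b hab
    exact CE.inc_inj α (congrArg Additive.toMul hab)
  obtain ⟨h, hh⟩ := inj_ext f hf (AddMonoidHom.id DD)
  refine ⟨fun a => h (Additive.ofMul ⟨0, a⟩), ?_⟩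
  intro a b
  have e1 : (Additive.ofMul (⟨0, a⟩ : CE α)) + Additive.ofMul (⟨0, b⟩ : CE α)
      = f (α.f a b) + Additive.ofMul (⟨0, a * b⟩ : CE α) := by
    show Additive.ofMul ((⟨0, a⟩ : CE α) * ⟨0, b⟩)
      = Additive.ofMul (CE.inc α (α.f a b) * ⟨0, a * b⟩)
    congr 1
    rw [CE.inc_mul]
    ext
    · simp
    · simp
  have e2 := congrArg h e1
  rw [map_add, map_add, hh] at e2
  simp only [AddMonoidHom.id_apply] at e2
  rw [e2]; abel

/-- The additive data for the groups used. -/
structure ND (N : Type) [AddCommGroup N] where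
  φ : N ≃+ N
  z : N
  m0 : ℕ
  t : ℕ
  m0pos : 0 < m0
  tpos : 0 < t
  fix : φ z = z
  ord : ∀ n, (φ^[m0]) n = n
  texp : ∀ n : N, t • n = 0
  ker : ∀ n, φ n = n → ∃ k : ℤ, n = k • z

theorem mulAut_pow_apply {P : Type} [Group P] (f : MulAut P) (k : ℕ) (p : P) :
    (f ^ k) p = (f^[k]) p := by
  induction k generalizing p with
  | zero => rfl
  | succ n ih => rw [pow_succ, MulAut.mul_apply, ih, Function.iterate_succ_apply]

variable {N : Type} [AddCommGroup N] (E : ND N)

/-- The multiplicative version of the automorphism. -/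
def ND.Φ : MulAut (Multiplicative N) := AddEquiv.toMultiplicative E.φ

theorem ND.Φ_apply (p : Multiplicative N) :
    E.Φ p = Multiplicative.ofAdd (E.φ (Multiplicative.toAdd p)) := rfl

theorem ND.Φ_iter (k : ℕ) (p : Multiplicative N) :
    (E.Φ^[k]) p = Multiplicative.ofAdd ((E.φ^[k]) (Multiplicative.toAdd p)) := by
  induction k generalizing p with
  | zero => rfl
  | succ n ih => rw [Function.iterate_succ_apply, ih, Function.iterate_succ_apply]; rfl

theorem ND.Φ_ord0 : E.Φ ^ E.m0 = 1 := by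
  ext p
  rw [mulAut_pow_apply, ND.Φ_iter, E.ord]
  rfl

/-- The cyclic extension data. -/
def ND.C : CData (Multiplicative N) where
  φ := E.Φ
  z := Multiplicative.ofAdd E.z
  m := E.m0 * E.t
  mpos := Nat.mul_pos E.m0pos E.tpos
  fix := by rw [E.Φ_apply]; exact congrArg Multiplicative.ofAdd E.fix
  cen := fun p => mul_comm _ _
  ord := by rw [pow_mul, E.Φ_ord0, one_pow]

/-- The group. -/
abbrev ND.G : Type := Cyc E.C

/-- The inclusion of `N`. -/
def ND.inN (n : N) : E.G := Cyc.ι E.C (Multiplicative.ofAdd n)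

theorem ND.inN_add (n m : N) : E.inN (n + m) = E.inN n * E.inN m := by
  unfold ND.inN; rw [ofAdd_add, map_mul]

theorem ND.inN_zero : E.inN 0 = 1 := by
  unfold ND.inN; rw [ofAdd_zero, map_one]

theorem ND.inN_nsmul (k : ℕ) (n : N) : E.inN (k • n) = E.inN n ^ k := by
  unfold ND.inN; rw [ofAdd_nsmul, map_pow]

theorem ND.inN_comm (n m : N) : Commute (E.inN n) (E.inN m) := by
  show _ * _ = _ * _
  rw [← E.inN_add, ← E.inN_add, add_comm]

theorem ND.conjX (n : N) : Cyc.X E.C * E.inN n * (Cyc.X E.C)⁻¹ = E.inN (E.φ n) :=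
  Cyc.conj E.C (Multiplicative.ofAdd n)

theorem ND.X_pow : Cyc.X E.C ^ (E.m0 * E.t) = E.inN E.z := Cyc.X_pow E.C

theorem ND.Xm0_comm (n : N) : Commute (Cyc.X E.C ^ E.m0) (E.inN n) := by
  have h : ∀ k : ℕ, Cyc.X E.C ^ k * E.inN n * (Cyc.X E.C ^ k)⁻¹ = E.inN ((E.φ^[k]) n) := by
    intro k
    induction k with
    | zero => simp
    | succ k ih =>
      rw [Function.iterate_succ_apply', ← E.conjX, ← ih, pow_succ']
      group
  have h1 := h E.m0
  rw [E.ord] at h1
  show _ * _ = _ * _
  nth_rewrite 2 [← h1]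
  group

variable (α : NCoc E.G)

/-- The form attached to a cocycle. -/
def ND.b (n m : N) : DD := α.c (E.inN n) (E.inN m)

theorem ND.b_add_left (n n' m : N) : E.b α (n + n') m = E.b α n m + E.b α n' m := by
  unfold ND.b
  rw [E.inN_add, α.c_mul_left (E.inN_comm _ _) (E.inN_comm _ _)]

theorem ND.b_swap (n m : N) : E.b α n m = - E.b α m n := α.c_swap _ _

theorem ND.b_add_right (n m m' : N) : E.b α n (m + m') = E.b α n m + E.b α n m' := by
  rw [E.b_swap α n (m + m'), E.b_add_left, E.b_swap α n m, E.b_swap α n m']; abel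

theorem ND.b_self (n : N) : E.b α n n = 0 := α.c_self _

theorem ND.b_inv (n m : N) : E.b α (E.φ n) (E.φ m) = E.b α n m := by
  unfold ND.b
  rw [← E.conjX, ← E.conjX, α.c_conj _ (E.inN_comm _ _)]

theorem ND.b_z (n : N) : E.b α E.z n = 0 := by
  unfold ND.b
  rw [← E.X_pow, pow_mul, α.c_pow_left (E.Xm0_comm n), ← α.c_pow_right (E.Xm0_comm n),
    ← E.inN_nsmul, E.texp, E.inN_zero, α.c_one_right]

/-- The splitting argument. -/
theorem ND.split (hb : ∀ n m, E.b α n m = 0) :
    ∃ s : E.G → DD, ∀ g k, α.f g k = s g + s k - s (g * k) := by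
  -- the pullback cocycle
  let α' : NCoc (Multiplicative N) :=
    { f := fun n m => α.f (Cyc.ι E.C n) (Cyc.ι E.C m)
      one_left := fun g => by rw [map_one]; exact α.one_left _
      one_right := fun g => by rw [map_one]; exact α.one_right _
      coc := fun g h k => by rw [map_mul, map_mul]; exact α.coc _ _ _ }
  obtain ⟨s0, hs0⟩ := sym_cob α' (by
    intro a b
    have := hb (Multiplicative.toAdd a) (Multiplicative.toAdd b)
    exact sub_eq_zero.1 this)
  have hs0' : ∀ a b : Multiplicative N, α.f (Cyc.ι E.C a) (Cyc.ι E.C b)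
      = s0 a + s0 b - s0 (a * b) := hs0
  have hs01 : s0 1 = 0 := by
    have := hs0' 1 1
    rw [map_one, α.one_left, mul_one] at this
    have e : s0 1 + s0 1 - s0 1 = s0 1 := by abel
    rw [e] at this
    exact this.symm
  let X : CE α := ⟨0, Cyc.X E.C⟩
  have main : ∀ μ : N →+ DD, ∃ j : Multiplicative N →* CE α,
      ∀ n, j n = ⟨μ (Multiplicative.toAdd n) - s0 n, Cyc.ι E.C n⟩ := by
    intro μ
    refine ⟨{ toFun := fun n => ⟨μ (Multiplicative.toAdd n) - s0 n, Cyc.ι E.C n⟩
              map_one' := ?_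
              map_mul' := ?_ }, fun n => rfl⟩
    · ext
      · simp [hs01]
      · simp
    · intro a b
      ext
      · simp only [CE.mul_a, toAdd_mul, map_add]
        rw [hs0']; abel
      · simp
  obtain ⟨j, hj⟩ := main 0
  have hjg : ∀ n, (j n).g = Cyc.ι E.C n := fun n => by rw [hj]
  have hXg : ∀ (u : CE α) (n : Multiplicative N), u.g = Cyc.ι E.C n →
      (X * u * X⁻¹).g = Cyc.ι E.C (E.Φ n) := by
    intro u n hu
    simp only [CE.mul_g, CE.inv_g, hu, X]
    exact Cyc.conj E.C n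
  let lam : Multiplicative N → DD := fun n => (X * j n * X⁻¹).a - (j (E.Φ n)).a
  have hlam : ∀ n, X * j n * X⁻¹ = CE.inc α (lam n) * j (E.Φ n) := by
    intro n
    exact CE.eq_inc_mul α _ _ ((hXg _ n (hjg n)).trans (hjg _).symm)
  have hlam_mul : ∀ a b, lam (a * b) = lam a + lam b := by
    intro a b
    have e1 := hlam (a * b)
    have e2 : X * j (a * b) * X⁻¹ = (X * j a * X⁻¹) * (X * j b * X⁻¹) := by
      rw [map_mul]; group
    rw [e2, hlam a, hlam b, map_mul, map_mul] at e1
    have e3 : CE.inc α (lam a) * j (E.Φ a) * (CE.inc α (lam b) * j (E.Φ b))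
        = CE.inc α (lam a + lam b) * (j (E.Φ a) * j (E.Φ b)) := by
      rw [CE.inc_add, mul_assoc, mul_assoc, ← mul_assoc (j (E.Φ a)), ← CE.inc_comm, mul_assoc]
    rw [e3] at e1
    exact (CE.inc_inj α (mul_right_cancel e1)).symm
  let lamA : N →+ DD :=
    { toFun := fun n => lam (Multiplicative.ofAdd n)
      map_zero' := by
        have := hlam_mul 1 1
        rw [mul_one] at this
        have e : lam 1 + lam 1 = lam 1 + 0 := by rw [add_zero]; exact this.symm
        exact add_left_cancel e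
      map_add' := fun a b => hlam_mul _ _ }
  have hΦz : E.Φ (Multiplicative.ofAdd E.z) = Multiplicative.ofAdd E.z := E.C.fix
  have hXm : ∀ u : CE α, u.g = Cyc.ι E.C (Multiplicative.ofAdd E.z) →
      ∃ d, X ^ (E.m0 * E.t) = CE.inc α d * u := by
    intro u hu
    refine ⟨_, CE.eq_inc_mul α _ _ ?_⟩
    rw [hu]
    have : (X ^ (E.m0 * E.t)).g = Cyc.X E.C ^ (E.m0 * E.t) := map_pow (CE.pr α) X _
    rw [this]
    exact Cyc.X_pow E.C
  have hlamz : lamA E.z = 0 := by
    obtain ⟨d, hd⟩ := hXm (j (Multiplicative.ofAdd E.z)) (hjg _)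
    have e1 : X * (CE.inc α d * j (Multiplicative.ofAdd E.z)) * X⁻¹
        = CE.inc α d * j (Multiplicative.ofAdd E.z) := by
      rw [← hd]; group
    have e2 : X * (CE.inc α d * j (Multiplicative.ofAdd E.z)) * X⁻¹
        = CE.inc α d * (X * j (Multiplicative.ofAdd E.z) * X⁻¹) := by
      rw [← mul_assoc X, ← CE.inc_comm α _ X]; group
    rw [e2, hlam, hΦz] at e1
    have e3 := mul_left_cancel e1
    have e4 : CE.inc α (lam (Multiplicative.ofAdd E.z)) * j (Multiplicative.ofAdd E.z)
        = CE.inc α 0 * j (Multiplicative.ofAdd E.z) := by rw [e3, CE.inc_zero, one_mul]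
    exact CE.inc_inj α (mul_right_cancel e4)
  obtain ⟨μ, hμ⟩ := factor_ext (E.φ.toAddMonoidHom - AddMonoidHom.id N) lamA (by
    intro a ha
    have ha' : E.φ a = a := sub_eq_zero.1 ha
    obtain ⟨k, hk⟩ := E.ker a ha'
    rw [hk, map_zsmul, hlamz, smul_zero])
  have hμ' : ∀ n, μ (E.φ n) = μ n + lamA n := by
    intro n
    have := hμ n
    simp only [AddMonoidHom.sub_apply, AddMonoidHom.id_apply, AddEquiv.toAddMonoidHom_eq_coe,
      AddMonoidHom.coe_coe, map_sub] at this
    rw [← this]; abel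
  obtain ⟨j', hj'⟩ := main μ
  have hjj : ∀ n, j' n = CE.inc α (μ (Multiplicative.toAdd n)) * j n := by
    intro n
    rw [hj', hj, CE.inc_mul]
    ext
    · simp [sub_eq_add_neg]
    · rfl
  have hconj' : ∀ n, X * j' n * X⁻¹ = j' (E.Φ n) := by
    intro n
    rw [hjj, hjj]
    have e2 : X * (CE.inc α (μ (Multiplicative.toAdd n)) * j n) * X⁻¹
        = CE.inc α (μ (Multiplicative.toAdd n)) * (X * j n * X⁻¹) := by
      rw [← mul_assoc X, ← CE.inc_comm α _ X]; group
    rw [e2, hlam, ← mul_assoc, ← CE.inc_add]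
    congr 2
    exact (hμ' (Multiplicative.toAdd n)).symm
  obtain ⟨d', hd'⟩ := hXm (j' (Multiplicative.ofAdd E.z)) (by rw [hj'])
  obtain ⟨e, he⟩ := div_ext d' (Nat.mul_pos E.m0pos E.tpos)
  let X' : CE α := CE.inc α (-e) * X
  have hX'm : X' ^ E.C.m = j' E.C.z := by
    show (CE.inc α (-e) * X) ^ (E.m0 * E.t) = j' (Multiplicative.ofAdd E.z)
    have hc : Commute (CE.inc α (-e)) X := CE.inc_comm α _ X
    rw [hc.mul_pow, CE.inc_pow, hd', ← mul_assoc, ← CE.inc_add, smul_neg, he, neg_add_cancel,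
      CE.inc_zero, one_mul]
  have hX'c : ∀ p, X' * j' p * X'⁻¹ = j' (E.C.φ p) := by
    intro p
    have : X' * j' p * X'⁻¹ = X * j' p * X⁻¹ := by
      show CE.inc α (-e) * X * j' p * (CE.inc α (-e) * X)⁻¹ = _
      rw [mul_inv_rev, mul_assoc (CE.inc α (-e)), mul_assoc (CE.inc α (-e)),
        CE.inc_comm α (-e)]
      group
    rw [this]
    exact hconj' p
  let σ := Cyc.lift E.C j' X' hX'c hX'm
  have hσ : ∀ g, (σ g).g = g := by
    intro g
    have := Cyc.hom_ext E.C ((CE.pr α).comp σ) (MonoidHom.id _) (by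
      intro p
      show (σ (Cyc.ι E.C p)).g = _
      rw [show σ (Cyc.ι E.C p) = j' p from Cyc.lift_ι _ _ _ _ _ p, hj']
      rfl) (by
      show (σ (Cyc.X E.C)).g = _
      rw [show σ (Cyc.X E.C) = X' from Cyc.lift_X _ _ _ _ _]
      show (CE.inc α (-e) * X).g = _
      rw [CE.inc_mul]
      rfl) g
    exact this
  refine ⟨fun g => -(σ g).a, ?_⟩
  intro g k
  have h1 : σ (g * k) = σ g * σ k := map_mul σ g k
  have h2 := congrArg CE.a h1
  rw [CE.mul_a, hσ, hσ] at h2
  show α.f g k = -(σ g).a + -(σ k).a - -(σ (g * k)).a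
  rw [h2]; abel

end Pool.Agent.Helper542.Schur
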