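import Mathlib
import Pool.Agent.Helper542.Schur.Base
import Pool.Agent.Helper542.Schur.Cyc
import Pool.Agent.Helper542.Schur.Split

set_option autoImplicit false

namespace Pool.Agent.Helper542.Schur

/-- A central extension by `ℚ/ℤ` gives a cocycle computing commutators. -/
theorem extcoc {Γ G : Type} [Group Γ] [Group G] (π : Γ →* G) (hπ : Function.Surjective π)
    (i : DD → Γ) (hadd : ∀ a b, i (a + b) = i a * i b) (hinj : Function.Injective i)
    (hcen : ∀ a x, i a * x = x * i a) (hker : ∀ x, π x = 1 → ∃ a, x = i a)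
    (_ : ∀ a, π (i a) = 1) :
    ∃ α : NCoc G, ∀ u v : Γ, Commute (π u) (π v) → u * v = i (α.c (π u) (π v)) * (v * u) := by
  have hi0 : i 0 = 1 := by
    have := hadd 0 0
    rw [add_zero] at this
    exact (mul_eq_left.1 this.symm)
  obtain ⟨s0, hs0⟩ := hπ.hasRightInverse
  let s : G → Γ := fun g => s0 g * (s0 1)⁻¹
  have hs : ∀ g, π (s g) = g := by
    intro g
    simp only [s, map_mul, map_inv, hs0 g, hs0 1, inv_one, mul_one]
  have hs1 : s 1 = 1 := mul_inv_cancel _
  clear_value s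
  have hd : ∀ u : Γ, ∃ d, u = i d * s (π u) := by
    intro u
    obtain ⟨d, hd⟩ := hker (u * (s (π u))⁻¹) (by rw [map_mul, map_inv, hs, mul_inv_cancel])
    exact ⟨d, by rw [← hd, inv_mul_cancel_right]⟩
  have hex : ∀ g h, ∃ d, s g * s h = i d * s (g * h) := by
    intro g h
    obtain ⟨d, hd⟩ := hd (s g * s h)
    rw [map_mul, hs, hs] at hd
    exact ⟨d, hd⟩
  choose f hf using hex
  have canc : ∀ (a b : DD) (x : Γ), i a * x = i b * x → a = b := fun a b x h =>
    hinj (mul_right_cancel h)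
  refine ⟨⟨f, ?_, ?_, ?_⟩, ?_⟩
  · intro g
    have := hf 1 g
    rw [hs1, one_mul, one_mul] at this
    exact (canc 0 _ (s g) (by rw [← this, hi0, one_mul])).symm
  · intro g
    have := hf g 1
    rw [hs1, mul_one, mul_one] at this
    exact (canc 0 _ (s g) (by rw [← this, hi0, one_mul])).symm
  · intro g h k
    apply canc _ _ (s (g * h * k))
    have e1 : s g * s h * s k = i (f g h + f (g * h) k) * s (g * h * k) := by
      rw [hf g h, mul_assoc, hf (g * h) k, ← mul_assoc, ← hadd]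
    have e2 : s g * (s h * s k) = i (f h k + f g (h * k)) * s (g * (h * k)) := by
      rw [hf h k, ← mul_assoc, ← hcen, mul_assoc, hf g (h * k), ← mul_assoc, ← hadd]
    rw [← e1, mul_assoc, e2, mul_assoc g h k]
  · intro u v huv
    obtain ⟨d, hdu⟩ := hd u
    obtain ⟨e, hev⟩ := hd v
    have e1 : u * v = i (d + e + f (π u) (π v)) * s (π u * π v) := by
      nth_rewrite 1 [hdu]
      nth_rewrite 1 [hev]
      rw [mul_assoc, ← mul_assoc (s (π u)), ← hcen, mul_assoc, hf (π u) (π v), ← mul_assoc,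
        ← mul_assoc, ← hadd, ← hadd]
    have e2 : v * u = i (e + d + f (π v) (π u)) * s (π v * π u) := by
      nth_rewrite 1 [hdu]
      nth_rewrite 1 [hev]
      rw [mul_assoc, ← mul_assoc (s (π v)), ← hcen, mul_assoc, hf (π v) (π u), ← mul_assoc,
        ← mul_assoc, ← hadd, ← hadd]
    rw [e1, e2, huv.eq, ← mul_assoc, ← hadd]
    congr 2
    simp only [NCoc.c]
    abel

/-- The Heisenberg type group of a bilinear map. -/
@[ext] structure Hs {N : Type} [AddCommGroup N] (β : N →+ N →+ DD) where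
  n : N
  d : DD

section
variable {N : Type} [AddCommGroup N] (β : N →+ N →+ DD)

instance : Mul (Hs β) := ⟨fun u v => ⟨u.n + v.n, u.d + v.d + β u.n v.n⟩⟩
instance : One (Hs β) := ⟨⟨0, 0⟩⟩
instance : Inv (Hs β) := ⟨fun u => ⟨-u.n, -u.d - β (-u.n) u.n⟩⟩

@[simp] theorem Hs.mul_n (u v : Hs β) : (u * v).n = u.n + v.n := rfl
@[simp] theorem Hs.mul_d (u v : Hs β) : (u * v).d = u.d + v.d + β u.n v.n := rfl
@[simp] theorem Hs.one_n : (1 : Hs β).n = 0 := rfl
@[simp] theorem Hs.one_d : (1 : Hs β).d = 0 := rfl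
@[simp] theorem Hs.inv_n (u : Hs β) : (u⁻¹).n = -u.n := rfl
@[simp] theorem Hs.inv_d (u : Hs β) : (u⁻¹).d = -u.d - β (-u.n) u.n := rfl

instance : Group (Hs β) := Group.ofLeftAxioms
  (by
    intro u v w
    ext
    · simp [add_assoc]
    · simp only [Hs.mul_n, Hs.mul_d, map_add, AddMonoidHom.add_apply]; abel)
  (by
    intro u
    ext
    · simp
    · simp)
  (by
    intro u
    ext
    · simp
    · simp only [Hs.mul_d, Hs.inv_n, Hs.inv_d, Hs.one_d]; abel)

/-- The projection. -/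
def Hs.pr : Hs β →* Multiplicative N where
  toFun u := Multiplicative.ofAdd u.n
  map_one' := rfl
  map_mul' _ _ := rfl

theorem exists_q (φ : N ≃+ N) (z : N) (fix : φ z = z)
    (hsym : ∀ n m, β (φ n) (φ m) - β n m = β (φ m) (φ n) - β m n) :
    ∃ q : N → DD, (∀ n m, q (n + m) = q n + q m + (β (φ n) (φ m) - β n m)) ∧ q z = 0 := by
  let α : NCoc (Multiplicative N) :=
    { f := fun a b => β (φ (Multiplicative.toAdd a)) (φ (Multiplicative.toAdd b))
        - β (Multiplicative.toAdd a) (Multiplicative.toAdd b)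
      one_left := fun g => by simp
      one_right := fun g => by simp
      coc := fun g h k => by
        simp only [toAdd_mul, map_add, AddMonoidHom.add_apply]; abel }
  obtain ⟨s, hs⟩ := sym_cob α (fun a b => hsym _ _)
  have hs' : ∀ n m : N, β (φ n) (φ m) - β n m
      = s (Multiplicative.ofAdd n) + s (Multiplicative.ofAdd m)
        - s (Multiplicative.ofAdd (n + m)) := fun n m => hs _ _
  let q0 : N → DD := fun n => - s (Multiplicative.ofAdd n)
  have hq0 : ∀ n m, q0 (n + m) = q0 n + q0 m + (β (φ n) (φ m) - β n m) := by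
    intro n m
    rw [hs']; simp only [q0]; abel
  have hq00 : q0 0 = 0 := by
    have := hq0 0 0
    simp only [add_zero, map_zero, sub_zero] at this
    exact (add_eq_left.1 this.symm)
  have hmul : ∀ j k : ℤ, q0 ((j + k) • z) = q0 (j • z) + q0 (k • z) := by
    intro j k
    have hj : ∀ j : ℤ, φ (j • z) = j • z := fun j => by rw [map_zsmul, fix]
    rw [add_smul, hq0, hj, hj, sub_self, add_zero]
  let g : ℤ →+ DD :=
    { toFun := fun j => q0 (j • z)
      map_zero' := by rw [zero_smul, hq00]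
      map_add' := hmul }
  obtain ⟨h, hh⟩ := factor_ext (zmultiplesHom N z) g (by
    intro a ha
    have ha' : a • z = 0 := ha
    show q0 (a • z) = 0
    rw [ha', hq00])
  refine ⟨fun n => q0 n - h n, ?_, ?_⟩
  · intro n m
    show q0 (n + m) - h (n + m) = (q0 n - h n) + (q0 m - h m) + (β (φ n) (φ m) - β n m)
    rw [hq0, map_add]; abel
  · have := hh 1
    simp only [zmultiplesHom_apply, one_smul] at this
    show q0 z - h z = 0
    rw [this]
    show q0 z - q0 ((1 : ℤ) • z) = 0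
    rw [one_smul, sub_self]

end

theorem ND.heis {N : Type} [AddCommGroup N] (E : ND N) (β : N →+ N →+ DD)
    (hsym : ∀ n m, β (E.φ n) (E.φ m) - β n m = β (E.φ m) (E.φ n) - β m n)
    (hz : ∀ n, β E.z n = β n E.z) :
    ∃ α : NCoc E.G, ∀ n m, E.b α n m = β n m - β m n := by
  obtain ⟨q, hq, hqz⟩ := exists_q β E.φ E.z E.fix hsym
  have hq0 : q 0 = 0 := by
    have := hq 0 0
    simp only [add_zero, map_zero, sub_zero] at this
    exact (add_eq_left.1 this.symm)
  let φh : MulAut (Hs β) :=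
    { toFun := fun u => ⟨E.φ u.n, u.d + q u.n⟩
      invFun := fun u => ⟨E.φ.symm u.n, u.d - q (E.φ.symm u.n)⟩
      left_inv := by
        intro u
        ext <;> simp
      right_inv := by
        intro u
        ext <;> simp
      map_mul' := by
        intro u v
        ext
        · simp
        · simp only [Hs.mul_d, Hs.mul_n]
          rw [hq]; abel }
  have hφn : ∀ u, (φh u).n = E.φ u.n := fun u => rfl
  have hφd : ∀ u, (φh u).d = u.d + q u.n := fun u => rfl
  have hiter : ∀ (k : ℕ) (u : Hs β), ((φh ^ k) u).n = (E.φ^[k]) u.n := by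
    intro k
    induction k with
    | zero => intro u; rfl
    | succ k ih =>
      intro u
      rw [pow_succ', MulAut.mul_apply, hφn, ih, Function.iterate_succ_apply']
  have hiterd : ∀ (k : ℕ) (n : N) (d : DD), ((φh ^ k) ⟨n, d⟩).d = d + ((φh ^ k) ⟨n, 0⟩).d := by
    intro k
    induction k with
    | zero => intro n d; simp
    | succ k ih =>
      intro n d
      rw [pow_succ', MulAut.mul_apply, MulAut.mul_apply, hφd, hφd, ih, hiter, hiter]
      abel
  let Λ : N → DD := fun n => ((φh ^ E.m0) ⟨n, 0⟩).d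
  have hΛ : ∀ u : Hs β, (φh ^ E.m0) u = ⟨u.n, u.d + Λ u.n⟩ := by
    intro u
    ext
    · rw [hiter, E.ord]
    · exact hiterd E.m0 u.n u.d
  have hΛadd : ∀ n m, Λ (n + m) = Λ n + Λ m := by
    intro n m
    have h1 := map_mul (φh ^ E.m0) (⟨n, 0⟩ : Hs β) ⟨m, 0⟩
    rw [hΛ, hΛ, hΛ] at h1
    have h2 := congrArg Hs.d h1
    simp only [Hs.mul_d, Hs.mul_n, zero_add] at h2
    have h3 : β n m + Λ (n + m) = β n m + (Λ n + Λ m) := by rw [h2]; abel
    exact add_left_cancel h3
  let ΛA : N →+ DD :=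
    { toFun := Λ
      map_zero' := by
        have := hΛadd 0 0
        rw [add_zero] at this
        exact (add_eq_left.1 this.symm)
      map_add' := hΛadd }
  have hpow : ∀ (k : ℕ) (u : Hs β), (φh ^ (E.m0 * k)) u = ⟨u.n, u.d + k • Λ u.n⟩ := by
    intro k
    induction k with
    | zero => intro u; ext <;> simp
    | succ k ih =>
      intro u
      rw [Nat.mul_succ, pow_add, MulAut.mul_apply, hΛ, ih]
      ext
      · rfl
      · simp only [succ_nsmul]; abel
  have hord : φh ^ (E.m0 * E.t) = 1 := by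
    ext u
    · rw [hpow]; rfl
    · rw [hpow]
      show u.d + E.t • ΛA u.n = u.d
      rw [← map_nsmul, E.texp, map_zero, add_zero]
  let Ch : CData (Hs β) :=
    { φ := φh
      z := ⟨E.z, 0⟩
      m := E.m0 * E.t
      mpos := Nat.mul_pos E.m0pos E.tpos
      fix := by
        ext
        · exact E.fix
        · show (0 : DD) + q E.z = 0
          rw [hqz, add_zero]
      cen := by
        intro p
        ext
        · exact add_comm _ _
        · simp only [Hs.mul_d]
          rw [hz]; abel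
      ord := hord }
  let π : Cyc Ch →* E.G := Cyc.lift Ch ((Cyc.ι E.C).comp (Hs.pr β)) (Cyc.X E.C)
    (by
      intro p
      exact Cyc.conj E.C (Multiplicative.ofAdd p.n))
    (Cyc.X_pow E.C)
  have hπι : ∀ p : Hs β, π (Cyc.ι Ch p) = E.inN p.n := fun p => Cyc.lift_ι Ch _ _ _ _ p
  have hπX : π (Cyc.X Ch) = Cyc.X E.C := Cyc.lift_X Ch _ _ _ _
  have hinN : ∀ p : Multiplicative N, Cyc.ι E.C p = E.inN (Multiplicative.toAdd p) := fun p => rfl
  have hsurj : Function.Surjective π := by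
    intro g
    obtain ⟨p, k, rfl⟩ := Cyc.form E.C g
    refine ⟨Cyc.ι Ch ⟨Multiplicative.toAdd p, 0⟩ * Cyc.X Ch ^ k, ?_⟩
    rw [map_mul, map_zpow, hπι, hπX]
    rfl
  let i : DD → Cyc Ch := fun d => Cyc.ι Ch ⟨0, d⟩
  have hpi : ∀ (a : DD) (p : Hs β), (⟨0, a⟩ : Hs β) * p = ⟨p.n, a + p.d⟩ := by
    intro a p
    ext
    · simp
    · simp
  have hpi' : ∀ (a : DD) (p : Hs β), p * (⟨0, a⟩ : Hs β) = ⟨p.n, a + p.d⟩ := by
    intro a p
    ext
    · simp
    · simp [add_comm]
  obtain ⟨α, hα⟩ := extcoc π hsurj i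
    (by
      intro a b
      show Cyc.ι Ch _ = Cyc.ι Ch _ * Cyc.ι Ch _
      rw [← map_mul, hpi])
    (by
      intro a b hab
      have := Cyc.ι_inj Ch hab
      exact congrArg Hs.d this)
    (by
      intro a x
      have hX : Commute (i a) (Cyc.X Ch) := by
        have h1 := Cyc.conj Ch ⟨0, a⟩
        have h2 : Ch.φ ⟨0, a⟩ = ⟨0, a⟩ := by
          ext
          · show E.φ 0 = 0
            exact map_zero _
          · show a + q 0 = a
            rw [hq0, add_zero]
        rw [h2, mul_inv_eq_iff_eq_mul] at h1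
        exact h1.symm
      obtain ⟨p, k, rfl⟩ := Cyc.form Ch x
      have hι : Commute (i a) (Cyc.ι Ch p) := by
        show Cyc.ι Ch _ * Cyc.ι Ch _ = Cyc.ι Ch _ * Cyc.ι Ch _
        rw [← map_mul, ← map_mul, hpi, hpi']
      exact (hι.mul_right (hX.zpow_right k)).eq)
    (by
      intro x hx
      obtain ⟨p, k, rfl⟩ := Cyc.form Ch x
      rw [map_mul, map_zpow, hπι, hπX] at hx
      obtain ⟨j, hk, hp⟩ := (Cyc.eq_one_iff E.C _ k).1 hx
      have hp' : p.n = (-j) • E.z := congrArg Multiplicative.toAdd hp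
      have hX : Cyc.X Ch ^ k = Cyc.ι Ch (Ch.z ^ j) := by
        rw [hk]
        have : (E.C.m : ℤ) = (Ch.m : ℤ) := rfl
        rw [this, zpow_mul, zpow_natCast, Cyc.X_pow, map_zpow]
      rw [hX, ← map_mul]
      refine ⟨(p * Ch.z ^ j).d, ?_⟩
      show Cyc.ι Ch _ = Cyc.ι Ch _
      congr 1
      ext
      · show (p * Ch.z ^ j).n = 0
        have h1 : (Ch.z ^ j).n = j • E.z := by
          have := map_zpow (Hs.pr β) Ch.z j
          exact congrArg Multiplicative.toAdd this
        rw [Hs.mul_n, h1, hp']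
        rw [neg_smul, neg_add_cancel]
      · rfl)
    (by
      intro a
      rw [hπι]
      exact E.inN_zero)
  refine ⟨α, ?_⟩
  intro n m
  have h1 := hα (Cyc.ι Ch ⟨n, 0⟩) (Cyc.ι Ch ⟨m, 0⟩) (by
    rw [hπι, hπι]; exact E.inN_comm n m)
  rw [hπι, hπι] at h1
  have h2 : Cyc.ι Ch ⟨n, 0⟩ * Cyc.ι Ch ⟨m, 0⟩ = Cyc.ι Ch ⟨n + m, β n m⟩ := by
    rw [← map_mul]; congr 1
    ext
    · rfl
    · simp
  have h3 : Cyc.ι Ch ⟨m, 0⟩ * Cyc.ι Ch ⟨n, 0⟩ = Cyc.ι Ch ⟨n + m, β m n⟩ := by
    rw [← map_mul]; congr 1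
    ext
    · simp [add_comm]
    · simp
  have h4 : i (α.c (E.inN n) (E.inN m)) * Cyc.ι Ch ⟨n + m, β m n⟩
      = Cyc.ι Ch ⟨n + m, α.c (E.inN n) (E.inN m) + β m n⟩ := by
    show Cyc.ι Ch _ * Cyc.ι Ch _ = _
    rw [← map_mul, hpi]
  have h5 : Cyc.ι Ch ⟨n + m, β n m⟩
      = Cyc.ι Ch ⟨n + m, α.c (E.inN n) (E.inN m) + β m n⟩ := by
    rw [← h4, ← h3, ← h2]
    exact h1
  have h6 := congrArg Hs.d (Cyc.ι_inj Ch h5)
  show α.c (E.inN n) (E.inN m) = _
  have h7 : β n m = α.c (E.inN n) (E.inN m) + β m n := h6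
  rw [h7]; abel

end Pool.Agent.Helper542.Schur
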