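import Mathlib
import Pool.Agent.Helper542.Schur.Base
import Pool.Agent.Helper542.Schur.Char
import Pool.Agent.Helper542.Schur.Cyc
import Pool.Agent.Helper542.Schur.Split
import Pool.Agent.Helper542.Schur.Heis

set_option autoImplicit false

namespace Pool.Agent.Helper542.Schur

/-- Unipotent elements have `p`-power order. -/
theorem unip_pow {R : Type} [CommRing R] {p : ℕ} (hp : p.Prime) (u : R) (c d : ℕ)
    (hc : (p : R) ^ c = 0) (hd : (u - 1) ^ d = 0) : ∃ r : ℕ, u ^ p ^ r = 1 := by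
  obtain ⟨r, hr⟩ := exists_add_pow_prime_pow_eq hp (u - 1) 1 d
  have hlt : d ≤ p ^ d := (Nat.lt_pow_self hp.one_lt).le
  have h0 : (u - 1) ^ p ^ d = 0 := by
    obtain ⟨k, hk⟩ := Nat.exists_eq_add_of_le hlt
    rw [hk, pow_add, hd, zero_mul]
  rw [sub_add_cancel, h0, zero_add, one_pow] at hr
  have hdvd : (p : R) ∣ u ^ p ^ d - 1 := by
    rw [hr]
    exact ⟨(u - 1) * 1 * r, by ring⟩
  have h2 := dvd_sub_pow_of_dvd_sub hdvd c
  rw [pow_succ, hc, zero_mul, zero_dvd_iff, one_pow, ← pow_mul, ← pow_add] at h2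
  exact ⟨d + c, sub_eq_zero.1 h2⟩

section
variable {B : Type} [CommRing B] (y : B)

/-- The automorphism. -/
def phiB : (B × B) ≃+ (B × B) where
  toFun n := (-n.2, n.1 + (y + 2) * n.2)
  invFun n := ((y + 2) * n.1 + n.2, -n.1)
  left_inv := by
    intro n
    ext
    · simp
    · simp
  right_inv := by
    intro n
    ext
    · simp
    · simp
  map_add' := by
    intro n m
    ext
    · simp only [Prod.snd_add, Prod.fst_add]; ring
    · simp only [Prod.snd_add, Prod.fst_add]; ring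

theorem phiB_apply (n : B × B) : phiB y n = (-n.2, n.1 + (y + 2) * n.2) := rfl

theorem phiB_symm_apply (n : B × B) : (phiB y).symm n = ((y + 2) * n.1 + n.2, -n.1) := rfl

theorem phiB_ord {p : ℕ} (hp : p.Prime) (c M : ℕ) (hc : (p : B) ^ c = 0) (hM : y ^ M = 0) :
    ∃ r : ℕ, ∀ n, ((phiB y)^[p ^ r]) n = n := by
  let w : QuadraticAlgebra B (-1) (y + 2) := ⟨0, 1⟩
  have hw : (w - 1) ^ 2 = algebraMap B (QuadraticAlgebra B (-1) (y + 2)) y * w := by
    ext
    · simp [w, pow_two, QuadraticAlgebra.algebraMap_eq, QuadraticAlgebra.re_one,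
        QuadraticAlgebra.im_one]
    · simp [w, pow_two, QuadraticAlgebra.algebraMap_eq, QuadraticAlgebra.re_one,
        QuadraticAlgebra.im_one]
      ring
  obtain ⟨r, hr⟩ := unip_pow hp w c (2 * M)
    (by
      have := congrArg (algebraMap B (QuadraticAlgebra B (-1) (y + 2))) hc
      rw [map_pow, map_natCast, map_zero] at this
      exact this)
    (by rw [pow_mul, hw, mul_pow, ← map_pow, hM, map_zero, zero_mul])
  refine ⟨r, ?_⟩
  have key : ∀ (k : ℕ) (n : B × B),
      (⟨(((phiB y)^[k]) n).1, (((phiB y)^[k]) n).2⟩ : QuadraticAlgebra B (-1) (y + 2))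
        = w ^ k * ⟨n.1, n.2⟩ := by
    intro k
    induction k with
    | zero => intro n; simp
    | succ k ih =>
      intro n
      rw [Function.iterate_succ_apply', pow_succ', mul_assoc, ← ih, phiB_apply]
      ext
      · simp [w]
      · simp [w]
  intro n
  have h1 := key (p ^ r) n
  rw [hr, one_mul] at h1
  ext
  · exact congrArg QuadraticAlgebra.re h1
  · exact congrArg QuadraticAlgebra.im h1

end

/-- The ring data. -/
structure RD (p : ℕ) (B : Type) [CommRing B] where
  y : B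
  κ : B
  c : ℕ
  r : ℕ
  gen : ∀ S : AddSubgroup B, (∀ k : ℕ, y ^ k ∈ S) → ∀ b, b ∈ S
  pc : (p : B) ^ c = 0
  ord : ∀ n, ((phiB y)^[p ^ r]) n = n
  yκ : y * κ = 0
  ann : ∀ b, y * b = 0 → ∃ k : ℤ, b = k • κ
  prime : p.Prime

section
variable {p : ℕ} {B : Type} [CommRing B] (R : RD p B)

/-- The module data. -/
def RD.E : ND (B × B) where
  φ := phiB R.y
  z := (-R.κ, R.κ)
  m0 := p ^ R.r
  t := p ^ R.c
  m0pos := pow_pos R.prime.pos _
  tpos := pow_pos R.prime.pos _
  fix := by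
    rw [phiB_apply]
    ext
    · rfl
    · show -R.κ + (R.y + 2) * R.κ = R.κ
      rw [add_mul, R.yκ]; ring
  ord := R.ord
  texp := by
    intro n
    ext
    · rw [Prod.smul_fst, nsmul_eq_mul, Nat.cast_pow, R.pc, zero_mul]; rfl
    · rw [Prod.smul_snd, nsmul_eq_mul, Nat.cast_pow, R.pc, zero_mul]; rfl
  ker := by
    intro n hn
    rw [phiB_apply] at hn
    have h1 : -n.2 = n.1 := congrArg Prod.fst hn
    have h2 : n.1 + (R.y + 2) * n.2 = n.2 := congrArg Prod.snd hn
    have h3 : R.y * n.2 = 0 := by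
      rw [← h1] at h2
      linear_combination h2
    obtain ⟨k, hk⟩ := R.ann _ h3
    refine ⟨k, ?_⟩
    ext
    · rw [← h1, hk]; simp
    · rw [hk]; simp

theorem RD.E_φ (n : B × B) : R.E.φ n = (-n.2, n.1 + (R.y + 2) * n.2) := rfl
theorem RD.E_φs (n : B × B) : R.E.φ.symm n = ((R.y + 2) * n.1 + n.2, -n.1) := rfl
theorem RD.E_z : R.E.z = (-R.κ, R.κ) := rfl

/-- The form as a bilinear map. -/
def RD.bb (α : NCoc R.E.G) : (B × B) →+ (B × B) →+ DD :=
  AddMonoidHom.mk' (fun n => AddMonoidHom.mk' (fun m => R.E.b α n m)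
    (fun m m' => R.E.b_add_right α n m m'))
    (by
      intro n n'
      ext m
      exact R.E.b_add_left α n n' m)

theorem RD.bb_apply (α : NCoc R.E.G) (n m : B × B) : R.bb α n m = R.E.b α n m := rfl

variable (α : NCoc R.E.G)

theorem RD.bb_swap (n m : B × B) : R.bb α n m = - R.bb α m n := R.E.b_swap α n m
theorem RD.bb_self (n : B × B) : R.bb α n n = 0 := R.E.b_self α n
theorem RD.bb_inv (n m : B × B) : R.bb α (R.E.φ n) (R.E.φ m) = R.bb α n m := R.E.b_inv α n m
theorem RD.bb_z (n : B × B) : R.bb α R.E.z n = 0 := R.E.b_z α n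

theorem RD.sum_eq (n : B × B) :
    R.y • n = R.E.φ n + R.E.φ.symm n - 2 • n := by
  rw [R.E_φ, R.E_φs, two_nsmul]
  ext
  · simp only [Prod.smul_fst, Prod.fst_add, Prod.fst_sub, smul_eq_mul]
    ring
  · simp only [Prod.smul_snd, Prod.snd_add, Prod.snd_sub, smul_eq_mul]
    ring

theorem RD.bb_φ_left (n m : B × B) : R.bb α (R.E.φ n) m = R.bb α n (R.E.φ.symm m) := by
  have := R.bb_inv α n (R.E.φ.symm m)
  rwa [AddEquiv.apply_symm_apply] at this

theorem RD.bb_φ_right (n m : B × B) : R.bb α n (R.E.φ m) = R.bb α (R.E.φ.symm n) m := by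
  have := R.bb_inv α (R.E.φ.symm n) m
  rwa [AddEquiv.apply_symm_apply] at this

theorem RD.bb_y (n m : B × B) : R.bb α (R.y • n) m = R.bb α n (R.y • m) := by
  rw [R.sum_eq, R.sum_eq]
  simp only [map_sub, map_add, map_nsmul, AddMonoidHom.sub_apply, AddMonoidHom.add_apply,
    AddMonoidHom.nsmul_apply]
  rw [R.bb_φ_left, R.bb_φ_right]
  abel

theorem RD.bb_y_self (n : B × B) : R.bb α (R.y • n) n = 0 := by
  rw [R.sum_eq]
  simp only [map_sub, map_add, map_nsmul, AddMonoidHom.sub_apply, AddMonoidHom.add_apply,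
    AddMonoidHom.nsmul_apply]
  rw [← R.bb_φ_right, R.bb_swap α n (R.E.φ n), R.bb_self]
  simp

theorem RD.bb_pow (k : ℕ) (n m : B × B) : R.bb α (R.y ^ k • n) m = R.bb α n (R.y ^ k • m) := by
  induction k generalizing n m with
  | zero => simp
  | succ k ih => rw [pow_succ, mul_smul, mul_smul, ih, R.bb_y, ← mul_smul, ← mul_smul,
      mul_comm (R.y ^ k)]

theorem RD.bb_pow_self (k : ℕ) (n : B × B) : R.bb α (R.y ^ k • n) n = 0 := by
  obtain ⟨j, hj | hj⟩ := Nat.even_or_odd' k
  · have e : R.y ^ k • n = R.y ^ j • (R.y ^ j • n) := by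
      rw [← mul_smul, ← pow_add, ← two_mul, hj]
    rw [e, R.bb_pow, R.bb_self]
  · have e : R.y ^ k • n = R.y ^ j • (R.y • (R.y ^ j • n)) := by
      rw [← mul_smul, ← mul_smul, hj]
      congr 1
      ring
    rw [e, R.bb_pow, R.bb_y_self]

theorem RD.bb_B (b : B) : ∀ n m : B × B, R.bb α (b • n) m = R.bb α n (b • m) := by
  let S : AddSubgroup B :=
    { carrier := {b | ∀ n m : B × B, R.bb α (b • n) m = R.bb α n (b • m)}
      add_mem' := by
        intro a b ha hb n m
        rw [add_smul, add_smul, map_add, map_add, AddMonoidHom.add_apply, ha, hb]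
      zero_mem' := by intro n m; simp
      neg_mem' := by
        intro a ha n m
        rw [neg_smul, neg_smul, map_neg, map_neg, AddMonoidHom.neg_apply, ha] }
  exact R.gen S (fun k => R.bb_pow α k) b

theorem RD.bb_B_self (b : B) : ∀ n : B × B, R.bb α (b • n) n = 0 := by
  let S : AddSubgroup B :=
    { carrier := {b | ∀ n : B × B, R.bb α (b • n) n = 0}
      add_mem' := by
        intro a b ha hb n
        rw [add_smul, map_add, AddMonoidHom.add_apply, ha, hb, add_zero]
      zero_mem' := by intro n; simp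
      neg_mem' := by
        intro a ha n
        rw [neg_smul, map_neg, AddMonoidHom.neg_apply, ha, neg_zero] }
  exact R.gen S (fun k => R.bb_pow_self α k) b

/-- The first basis vector. -/
def e0 : B × B := (1, 0)

/-- The second basis vector. -/
def e1 : B × B := (0, 1)

theorem decomp (n : B × B) : n = n.1 • (e0 : B × B) + n.2 • (e1 : B × B) := by
  ext <;> simp [e0, e1]

theorem RD.bb_eq (n m : B × B) :
    R.bb α n m = R.bb α ((n.2 * m.1 - n.1 * m.2) • e1) e0 := by
  conv_lhs => rw [decomp n, decomp m]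
  simp only [map_add, AddMonoidHom.add_apply]
  have h1 : R.bb α (n.1 • e0) (m.1 • e0) = 0 := by
    rw [← R.bb_B, ← mul_smul, R.bb_B_self]
  have h2 : R.bb α (n.2 • e1) (m.2 • e1) = 0 := by
    rw [← R.bb_B, ← mul_smul, R.bb_B_self]
  have h3 : R.bb α (n.2 • e1) (m.1 • e0) = R.bb α ((n.2 * m.1) • e1) e0 := by
    rw [← R.bb_B, ← mul_smul, mul_comm]
  have h4 : R.bb α (n.1 • e0) (m.2 • e1) = - R.bb α ((n.1 * m.2) • e1) e0 := by
    rw [R.bb_swap, ← R.bb_B, ← mul_smul]
  rw [h1, h2, h3, h4, sub_smul, map_sub, AddMonoidHom.sub_apply]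
  abel

theorem RD.bb_κ : R.bb α (R.κ • e1) e0 = 0 := by
  have h := R.bb_z α e0
  have e : R.E.z = -(R.κ • (e0 : B × B)) + R.κ • (e1 : B × B) := by
    rw [R.E_z]
    ext <;> simp [e0, e1]
  rw [e, map_add, AddMonoidHom.add_apply, map_neg, AddMonoidHom.neg_apply, R.bb_B_self, neg_zero,
    zero_add] at h
  exact h

/-- Realisation of forms. -/
theorem RD.exists_form (ψ : B →+ DD) (hψ : ψ R.κ = 0) :
    ∃ α : NCoc R.E.G, ∀ b : B, R.E.b α (b • e1) e0 = ψ b := by
  let β : (B × B) →+ (B × B) →+ DD :=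
    AddMonoidHom.mk' (fun n => AddMonoidHom.mk' (fun m => ψ (n.2 * m.1))
      (fun m m' => by rw [Prod.fst_add, mul_add, map_add]))
      (by
        intro n n'
        ext m
        all_goals simp [add_mul])
  have hβ : ∀ n m, β n m = ψ (n.2 * m.1) := fun n m => rfl
  have hκ : ∀ b, ψ (R.κ * b) = 0 := by
    intro b
    obtain ⟨k, hk⟩ := R.ann (R.κ * b) (by rw [← mul_assoc, R.yκ, zero_mul])
    rw [hk, map_zsmul, hψ, smul_zero]
  obtain ⟨α, hα⟩ := R.E.heis β
    (by
      intro n m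
      rw [hβ, hβ, hβ, hβ, R.E_φ, R.E_φ, ← map_sub, ← map_sub]
      congr 1
      simp only
      ring)
    (by
      intro n
      rw [hβ, hβ, R.E_z]
      simp only
      have h1 : ψ (n.2 * -R.κ) = 0 := by
        rw [mul_neg, map_neg, mul_comm, hκ, neg_zero]
      rw [hκ, h1])
  refine ⟨α, fun b => ?_⟩
  rw [hα, hβ, hβ]
  simp [e0, e1]

end

end Pool.Agent.Helper542.Schur
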