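import Mathlib
import Pool.Agent.Helper542.Schur.Exist

set_option autoImplicit false

namespace Pool.Agent.Helper542.Schur

open Polynomial

section
variable {p n : ℕ} {A : Type} [AddCommGroup A] (D : Dat p (n + 1) A)

/-- Evaluation at the operator. -/
noncomputable def Dat.op (P : ℤ[X]) : A →ₗ[ℤ] A :=
  Polynomial.aeval (R := ℤ) (A := Module.End ℤ A) D.Y.toIntLinearMap P

theorem Dat.op_mul (P Q : ℤ[X]) (a : A) : D.op (P * Q) a = D.op P (D.op Q a) := by
  unfold Dat.op; rw [map_mul]; rfl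

theorem Dat.op_X (a : A) : D.op X a = D.Y a := by
  unfold Dat.op; rw [Polynomial.aeval_X]; rfl

theorem Dat.op_one (a : A) : D.op 1 a = a := by
  unfold Dat.op; rw [map_one]; rfl

theorem Dat.op_add (P Q : ℤ[X]) (a : A) : D.op (P + Q) a = D.op P a + D.op Q a := by
  unfold Dat.op; rw [map_add]; rfl

theorem Dat.op_pow (k : ℕ) (a : A) : D.op (X ^ k) a = (D.Y^[k]) a := by
  induction k with
  | zero => rw [pow_zero, D.op_one]; rfl
  | succ k ih => rw [pow_succ', D.op_mul, ih, D.op_X, Function.iterate_succ_apply']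

/-- Evaluation at the cyclic vector. -/
noncomputable def Dat.ev : ℤ[X] →+ A where
  toFun P := D.op P D.v
  map_zero' := by unfold Dat.op; rw [map_zero]; rfl
  map_add' P Q := D.op_add P Q D.v

theorem Dat.ev_apply (P : ℤ[X]) : D.ev P = D.op P D.v := rfl

theorem Dat.ev_mul (P Q : ℤ[X]) : D.ev (P * Q) = D.op P (D.ev Q) := D.op_mul P Q D.v

/-- The functional. -/
noncomputable def Dat.lam : ℤ[X] →+ ZMod (p ^ (n + 1)) where
  toFun P := (p : ZMod (p ^ (n + 1))) ^ n * (P.coeff 0 : ZMod (p ^ (n + 1))) + D.μ (D.ev P.divX)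
  map_zero' := by simp
  map_add' P Q := by
    rw [Polynomial.divX_add, map_add, map_add, Polynomial.coeff_add, Int.cast_add]; ring

theorem Dat.lam_apply (P : ℤ[X]) : D.lam P =
    (p : ZMod (p ^ (n + 1))) ^ n * (P.coeff 0 : ZMod (p ^ (n + 1))) + D.μ (D.ev P.divX) := rfl

theorem Dat.lam_X (P : ℤ[X]) : D.lam (X * P) = D.μ (D.ev P) := by
  have h : (X * P).divX = P := by
    ext k
    rw [Polynomial.coeff_divX, Polynomial.coeff_X_mul]
  rw [D.lam_apply, h]
  simp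

/-- The ideal. -/
noncomputable def Dat.J : Ideal ℤ[X] where
  carrier := {P | ∀ Q, D.lam (P * Q) = 0}
  add_mem' := by
    intro P P' hP hP' Q
    rw [add_mul, map_add, hP, hP', add_zero]
  zero_mem' := by intro Q; rw [zero_mul, map_zero]
  smul_mem' := by
    intro R P hP Q
    rw [smul_eq_mul, mul_comm R P, mul_assoc]
    exact hP _

theorem Dat.mem_J (P : ℤ[X]) : P ∈ D.J ↔ ∀ Q, D.lam (P * Q) = 0 := Iff.rfl

theorem Dat.X_mul_mem (P : ℤ[X]) : X * P ∈ D.J ↔ D.ev P = 0 := by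
  rw [D.mem_J]
  constructor
  · intro h
    let T : AddSubgroup A :=
      { carrier := {a | ∀ Q : ℤ[X], D.μ (D.op Q a) = 0}
        add_mem' := by
          intro a b ha hb Q
          rw [map_add, map_add, ha Q, hb Q, add_zero]
        zero_mem' := by intro Q; rw [map_zero, map_zero]
        neg_mem' := by
          intro a ha Q
          rw [map_neg, map_neg, ha Q, neg_zero] }
    apply D.frob T
    · intro a ha
      have := ha 1
      rwa [D.op_one] at this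
    · intro a ha Q
      have := ha (Q * X)
      rwa [D.op_mul, D.op_X] at this
    · intro Q
      rw [← D.ev_mul, ← D.lam_X]
      have := h Q
      rwa [mul_assoc, mul_comm P Q] at this
  · intro h Q
    rw [mul_assoc, D.lam_X, mul_comm, D.ev_mul, h, map_zero, map_zero]

theorem Dat.J_ev (P : ℤ[X]) (hP : P ∈ D.J) : D.ev P = 0 := by
  rw [← D.X_mul_mem]
  exact D.J.mul_mem_left _ hP

theorem Dat.J_lam (P : ℤ[X]) (hP : P ∈ D.J) : D.lam P = 0 := by
  have := hP 1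
  rwa [mul_one] at this

theorem Dat.mem_J_of (P : ℤ[X]) (h1 : D.ev P = 0) (h2 : D.lam P = 0) : P ∈ D.J := by
  intro Q
  have e : P * Q = X * (P * Q.divX) + (Q.coeff 0) • P := by
    conv_lhs => rw [← Polynomial.X_mul_divX_add Q]
    rw [zsmul_eq_mul]
    simp only [eq_intCast]
    ring
  rw [e, map_add, D.lam_X, mul_comm P, D.ev_mul, h1, map_zero, map_zero, zero_add, map_zsmul, h2,
    smul_zero]

theorem Dat.ev_surj : Function.Surjective D.ev := by
  intro a
  apply D.cyc (AddMonoidHom.range D.ev)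
  · exact ⟨1, D.op_one _⟩
  · rintro _ ⟨P, rfl⟩
    exact ⟨X * P, by rw [D.ev_mul, D.op_X]⟩

theorem Dat.Y_nil : ∃ M : ℕ, ∀ a, (D.Y^[M]) a = 0 := by
  obtain ⟨s, hs⟩ := D.nil
  have h : ∀ j : ℕ, ∀ a, ∃ b, (D.Y^[s * j]) a = p ^ j • b := by
    intro j
    induction j with
    | zero => intro a; exact ⟨a, by simp⟩
    | succ j ih =>
      intro a
      obtain ⟨b, hb⟩ := hs a
      obtain ⟨b', hb'⟩ := ih b
      refine ⟨b', ?_⟩
      rw [Nat.mul_succ, Function.iterate_add_apply, hb, ← D.op_pow, map_nsmul, D.op_pow, hb',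
        smul_smul, pow_succ']
  refine ⟨s * (n + 1), fun a => ?_⟩
  obtain ⟨b, hb⟩ := h (n + 1) a
  rw [hb, D.tors]

end

theorem exists_ring {p : ℕ} (hp : p.Prime) (A : Type) [AddCommGroup A] [Finite A]
    (hA : ∀ a : A, ∃ n : ℕ, p ^ n • a = 0) :
    ∃ (B : Type) (_ : CommRing B) (y κ : B) (f : B →+ A) (c : ℕ), Finite B ∧ Nontrivial B ∧
      (∀ S : AddSubgroup B, (∀ k : ℕ, y ^ k ∈ S) → ∀ b, b ∈ S) ∧ (∃ M : ℕ, y ^ M = 0) ∧
      ((p : B) ^ c = 0) ∧ y * κ = 0 ∧ (∀ b, y * b = 0 → ∃ k : ℤ, b = k • κ) ∧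
      Function.Surjective f ∧ (∀ b, f b = 0 ↔ y * b = 0) := by
  obtain ⟨n, ⟨D0⟩⟩ := exists_dat hp A hA
  obtain ⟨D⟩ := D0.up hp
  have hne : NeZero (p ^ (n + 1)) := ⟨(pow_pos hp.pos _).ne'⟩
  let π : ℤ[X] →+* (ℤ[X] ⧸ D.J) := Ideal.Quotient.mk D.J
  have hπ : Function.Surjective π := Ideal.Quotient.mk_surjective
  have hπ0 : ∀ P, π P = 0 ↔ P ∈ D.J := fun P => Ideal.Quotient.eq_zero_iff_mem
  let f : (ℤ[X] ⧸ D.J) →+ A := QuotientAddGroup.lift (Submodule.toAddSubgroup D.J) D.ev D.J_ev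
  let l : (ℤ[X] ⧸ D.J) →+ ZMod (p ^ (n + 1)) :=
    QuotientAddGroup.lift (Submodule.toAddSubgroup D.J) D.lam D.J_lam
  have hf : ∀ P, f (π P) = D.ev P := fun P => rfl
  have hl : ∀ P, l (π P) = D.lam P := fun P => rfl
  have hfy : ∀ b, f b = 0 ↔ π X * b = 0 := by
    intro b
    obtain ⟨P, rfl⟩ := hπ b
    rw [hf, ← map_mul, hπ0, D.X_mul_mem]
  have hfl : ∀ b, f b = 0 → l b = 0 → b = 0 := by
    intro b
    obtain ⟨P, rfl⟩ := hπ b
    rw [hf, hl, hπ0]
    exact D.mem_J_of P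
  have hcyc : IsAddCyclic (AddMonoidHom.ker f) := by
    apply isAddCyclic_of_injective (l.comp (AddMonoidHom.ker f).subtype)
    rw [injective_iff_map_eq_zero]
    intro b hb
    exact Subtype.ext (hfl b.1 b.2 hb)
  obtain ⟨κ, hκ⟩ := hcyc.exists_generator
  refine ⟨ℤ[X] ⧸ D.J, inferInstance, π X, κ.1, f, n + 1, ?_, ?_, ?_, ?_, ?_, ?_, ?_, ?_, hfy⟩
  · let g : (ℤ[X] ⧸ D.J) →+ A × ZMod (p ^ (n + 1)) := f.prod l
    apply Finite.of_injective g
    rw [injective_iff_map_eq_zero]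
    intro b hb
    exact hfl b (congrArg Prod.fst hb) (congrArg Prod.snd hb)
  · refine ⟨⟨0, 1, fun h => ?_⟩⟩
    have h1 : π 1 = 0 := by rw [map_one]; exact h.symm
    have h2 := D.J_lam 1 ((hπ0 1).1 h1)
    rw [D.lam_apply] at h2
    simp only [Polynomial.coeff_one_zero, Int.cast_one, mul_one, Polynomial.divX_one, map_zero,
      add_zero] at h2
    rw [← Nat.cast_pow, ZMod.natCast_eq_zero_iff] at h2
    have := Nat.le_of_dvd (pow_pos hp.pos n) h2
    exact absurd this (not_le.2 (Nat.pow_lt_pow_right hp.one_lt (Nat.lt_succ_self n)))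
  · intro S hS b
    obtain ⟨P, rfl⟩ := hπ b
    induction P using Polynomial.induction_on' with
    | add P Q hP hQ => rw [map_add]; exact S.add_mem hP hQ
    | monomial k c =>
      have : π (Polynomial.monomial k c) = c • (π X ^ k) := by
        rw [← map_pow, ← map_zsmul, ← Polynomial.C_mul_X_pow_eq_monomial, zsmul_eq_mul]
        simp
      rw [this]
      exact S.zsmul_mem (hS k) c
  · obtain ⟨M, hM⟩ := D.Y_nil
    refine ⟨M + 1, ?_⟩
    rw [← map_pow, hπ0, D.mem_J]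
    intro Q
    have e : (X : ℤ[X]) ^ (M + 1) * Q = X * (X ^ M * Q) := by ring
    rw [e, D.lam_X, D.ev_mul, D.op_pow, hM, map_zero]
  · have : ((p : ℤ[X] ⧸ D.J)) ^ (n + 1) = π ((p : ℤ[X]) ^ (n + 1)) := by
      rw [map_pow, map_natCast]
    rw [this, hπ0, D.mem_J]
    intro Q
    have e : (p : ℤ[X]) ^ (n + 1) * Q = (p ^ (n + 1)) • Q := by
      rw [nsmul_eq_mul]; push_cast; rfl
    rw [e, map_nsmul, nsmul_eq_mul, ZMod.natCast_self, zero_mul]
  · exact (hfy _).1 κ.2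
  · intro b hb
    have hb' := (hfy b).2 hb
    obtain ⟨k, hk⟩ := AddSubgroup.mem_zmultiples_iff.1 (hκ ⟨b, hb'⟩)
    exact ⟨k, (congrArg Subtype.val hk).symm⟩
  · intro a
    obtain ⟨P, rfl⟩ := D.ev_surj a
    exact ⟨π P, rfl⟩

end Pool.Agent.Helper542.Schur
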