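import Mathlib
import Pool.Agent.Helper542.Schur.Base
import Pool.Agent.Helper542.Schur.Char
import Pool.Agent.Helper542.Schur.Cyc
import Pool.Agent.Helper542.Schur.Split
import Pool.Agent.Helper542.Schur.Heis
import Pool.Agent.Helper542.Schur.Form
import Pool.Agent.Helper542.Schur.Ring

set_option autoImplicit false

namespace Pool.Agent.Helper542.Schur

section
variable {N : Type} [AddCommGroup N] (E : ND N)

theorem ND.form (g : E.G) : ∃ (n : N) (k : ℤ), g = E.inN n * Cyc.X E.C ^ k := by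
  obtain ⟨q, k, hq⟩ := Cyc.form E.C g
  exact ⟨Multiplicative.toAdd q, k, hq⟩

theorem ND.X_order : Cyc.X E.C ^ (E.m0 * E.t * E.t) = 1 := by
  rw [pow_mul, E.X_pow, ← E.inN_nsmul, E.texp, E.inN_zero]

theorem ND.finite [Finite N] : Finite E.G := by
  have hfin : IsOfFinOrder (Cyc.X E.C) := by
    rw [isOfFinOrder_iff_pow_eq_one]
    exact ⟨E.m0 * E.t * E.t, Nat.mul_pos (Nat.mul_pos E.m0pos E.tpos) E.tpos, E.X_order⟩
  have : Finite (Subgroup.zpowers (Cyc.X E.C)) := Set.Finite.to_subtype (by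
    exact hfin.finite_zpowers)
  apply Finite.of_surjective (fun u : N × Subgroup.zpowers (Cyc.X E.C) => E.inN u.1 * u.2.1)
  intro g
  obtain ⟨n, k, rfl⟩ := E.form g
  exact ⟨(n, ⟨_, k, rfl⟩), rfl⟩

theorem ND.conj_zpow (k : ℤ) (n : N) : ∃ n', Cyc.X E.C ^ k * E.inN n = E.inN n' * Cyc.X E.C ^ k := by
  have := Schur.conj_zpow E.C (Cyc.ι E.C) (Cyc.X E.C) (Cyc.conj E.C) k (Multiplicative.ofAdd n)
  refine ⟨Multiplicative.toAdd ((E.C.φ ^ k) (Multiplicative.ofAdd n)), ?_⟩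
  have h2 : E.inN (Multiplicative.toAdd ((E.C.φ ^ k) (Multiplicative.ofAdd n)))
    = Cyc.ι E.C ((E.C.φ ^ k) (Multiplicative.ofAdd n)) := rfl
  rw [h2, this]
  show _ = Cyc.X E.C ^ k * E.inN n * (Cyc.X E.C ^ k)⁻¹ * Cyc.X E.C ^ k
  rw [inv_mul_cancel_right]

theorem ND.pow_form (n : N) (k : ℤ) (j : ℕ) :
    ∃ n', (E.inN n * Cyc.X E.C ^ k) ^ j = E.inN n' * (Cyc.X E.C ^ k) ^ j := by
  induction j with
  | zero => exact ⟨0, by rw [pow_zero, pow_zero, E.inN_zero, mul_one]⟩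
  | succ j ih =>
    obtain ⟨n', hn'⟩ := ih
    obtain ⟨n2, hn2⟩ := E.conj_zpow (k * j) n
    refine ⟨n' + n2, ?_⟩
    rw [pow_succ, hn', pow_succ, ← zpow_natCast (Cyc.X E.C ^ k), ← zpow_mul, E.inN_add]
    calc E.inN n' * Cyc.X E.C ^ (k * j) * (E.inN n * Cyc.X E.C ^ k)
        = E.inN n' * (Cyc.X E.C ^ (k * j) * E.inN n) * Cyc.X E.C ^ k := by group
      _ = _ := by rw [hn2]; group

theorem ND.pow_one (g : E.G) : g ^ (E.m0 * E.t * E.t * E.t) = 1 := by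
  obtain ⟨n, k, rfl⟩ := E.form g
  obtain ⟨n', hn'⟩ := E.pow_form n k (E.m0 * E.t * E.t)
  rw [pow_mul, hn', ← zpow_natCast (Cyc.X E.C ^ k), zpow_comm, zpow_natCast, E.X_order, one_zpow,
    mul_one, ← E.inN_nsmul, E.texp, E.inN_zero]

end

section
variable {p : ℕ} {B : Type} [CommRing B] (R : RD p B)

theorem RD.isPGroup : IsPGroup p R.E.G := by
  intro g
  refine ⟨R.r + R.c + R.c + R.c, ?_⟩
  have := R.E.pow_one g
  rw [pow_add, pow_add, pow_add]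
  exact this

theorem RD.nonab [Nontrivial B] : ∃ x y : R.E.G, x * y ≠ y * x := by
  refine ⟨Cyc.X R.E.C, R.E.inN e0, fun h => ?_⟩
  have h1 := R.E.conjX e0
  rw [h, mul_inv_cancel_right] at h1
  have h2 := Cyc.ι_inj R.E.C h1
  have h3 : (e0 : B × B) = R.E.φ e0 := congrArg Multiplicative.toAdd h2
  rw [R.E_φ] at h3
  have h4 := congrArg Prod.fst h3
  simp [e0] at h4

/-- The map to homology as a function. -/
noncomputable def RD.Φ0 (b : B) : HH R.E.G :=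
  prj R.E.G (cyc (R.E.inN (b • e1)) (R.E.inN e0) (R.E.inN_comm _ _))

theorem RD.χΦ (χ : HH R.E.G →+ DD) (α : NCoc R.E.G)
    (h : ∀ x, χ (prj R.E.G x) = pair α.f x.1) (b : B) :
    χ (R.Φ0 b) = R.bb α (b • e1) e0 := by
  rw [RD.Φ0, h, pair_cyc]
  rfl

/-- The map to homology. -/
noncomputable def RD.Φ : B →+ HH R.E.G :=
  AddMonoidHom.mk' R.Φ0 (by
    intro a b
    apply HH_sep
    intro χ
    obtain ⟨α, hα⟩ := exists_coc χ
    rw [map_add, R.χΦ χ α hα, R.χΦ χ α hα, R.χΦ χ α hα, add_smul, map_add,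
      AddMonoidHom.add_apply])

theorem RD.Φ_apply (b : B) : R.Φ b = R.Φ0 b := rfl

theorem RD.Φ_ker (b : B) : R.Φ b = 0 ↔ R.y * b = 0 := by
  constructor
  · intro hb
    apply sep_ext
    intro c
    let ψ : B →+ DD := c.comp (AddMonoidHom.mulLeft R.y)
    have hψ : ∀ b, ψ b = c (R.y * b) := fun b => rfl
    obtain ⟨α, hα⟩ := R.exists_form ψ (by rw [hψ, R.yκ, map_zero])
    obtain ⟨χ, hχ⟩ := exists_char α
    have h1 := R.χΦ χ α hχ b
    rw [← R.Φ_apply, hb, map_zero, R.bb_apply, hα, hψ] at h1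
    exact h1.symm
  · intro hb
    obtain ⟨k, hk⟩ := R.ann b hb
    apply HH_sep
    intro χ
    obtain ⟨α, hα⟩ := exists_coc χ
    rw [map_zero, R.Φ_apply, R.χΦ χ α hα, hk, smul_assoc, map_zsmul, AddMonoidHom.zsmul_apply,
      R.bb_κ, smul_zero]

theorem RD.Φ_surj : Function.Surjective R.Φ := by
  intro x
  show x ∈ R.Φ.range
  rw [← QuotientAddGroup.eq_zero_iff]
  apply sep_ext
  intro c
  let χ : HH R.E.G →+ DD := c.comp (QuotientAddGroup.mk' R.Φ.range)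
  have hχ0 : ∀ x, χ x = c (x : HH R.E.G ⧸ R.Φ.range) := fun x => rfl
  rw [← hχ0]
  have hχ : ∀ b, χ (R.Φ b) = 0 := by
    intro b
    rw [hχ0]
    have : ((R.Φ b : HH R.E.G) : HH R.E.G ⧸ R.Φ.range) = 0 :=
      (QuotientAddGroup.eq_zero_iff _).2 ⟨b, rfl⟩
    rw [this, map_zero]
  obtain ⟨α, hα⟩ := exists_coc χ
  obtain ⟨s, hs⟩ := R.E.split α (by
    intro n m
    rw [← R.bb_apply, R.bb_eq, ← R.χΦ χ α hα, ← R.Φ_apply, hχ])
  obtain ⟨z, rfl⟩ := prj_surj R.E.G x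
  rw [hα]
  exact pair_cob s α.f hs z.1 z.2

end

theorem main (p : ℕ) (hp : p.Prime) (A : Type) [AddCommGroup A] [Finite A]
    (hA : ∀ a : A, ∃ n : ℕ, p ^ n • a = 0) :
    ∃ (G : Type) (_ : Group G), Finite G ∧ IsPGroup p G ∧ (∃ x y : G, x * y ≠ y * x) ∧
      Nonempty (A ≃+ (groupHomology.H2 (Rep.trivial ℤ G ℤ))) := by
  obtain ⟨B, _, y, κ, f, c, hfin, hnt, hgen, ⟨M, hM⟩, hpc, hyκ, hann, hf, hker⟩ :=
    exists_ring hp A hA
  obtain ⟨r, hr⟩ := phiB_ord y hp c M hpc hM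
  let R : RD p B := ⟨y, κ, c, r, hgen, hpc, hr, hyκ, hann, hp⟩
  refine ⟨R.E.G, inferInstance, R.E.finite, R.isPGroup, R.nonab, ⟨?_⟩⟩
  let i1 := QuotientAddGroup.quotientKerEquivOfSurjective f hf
  let i2 := QuotientAddGroup.quotientKerEquivOfSurjective R.Φ R.Φ_surj
  have hk : f.ker = R.Φ.ker := by
    ext b
    rw [AddMonoidHom.mem_ker, AddMonoidHom.mem_ker, hker, R.Φ_ker]
  exact (i1.symm.trans (QuotientAddGroup.quotientAddEquivOfEq hk)).trans i2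

end Pool.Agent.Helper542.Schur
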